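import Mathlib

set_option autoImplicit false

namespace Pool.Agent.P.MP_7fcf1c_co

open Finset

/-- Cells: one class in each coordinate. -/
abbrev Cell {B : ℕ} (g : Fin B → ℕ) : Type := (a : Fin B) → Fin (g a)

variable {B : ℕ} {g : Fin B → ℕ}

theorem exists_spread (T : Finset (Cell g)) (a : Fin B) (y : Fin (g a)) (hT : ∀ c ∈ T, c a = y) :
    ∃ T' : Finset (Cell g), T'.card = T.card * g a ∧
      ∀ c' ∈ T', ∃ c ∈ T, ∀ b, b ≠ a → c' b = c b := by
  refine ⟨(T ×ˢ (univ : Finset (Fin (g a)))).image (fun p => Function.update p.1 a p.2), ?_, ?_⟩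
  · rw [card_image_of_injOn]
    · simp
    · rintro ⟨c, z⟩ hc ⟨c', z'⟩ hc' h
      simp only [coe_product, Set.mem_prod, mem_coe] at hc hc'
      have hz : z = z' := by
        have := congrFun h a
        simpa using this
      have hcc : c = c' := by
        funext b
        by_cases hb : b = a
        · subst hb
          rw [hT c hc.1, hT c' hc'.1]
        · have := congrFun h b
          simpa [Function.update_of_ne hb] using this
      rw [hz, hcc]
  · intro c' hc'
    obtain ⟨⟨c, z⟩, hc, rfl⟩ := mem_image.1 hc'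
    refine ⟨c, (mem_product.1 hc).1, ?_⟩
    intro b hb
    simp [Function.update_of_ne hb]

theorem star_card (T : Finset (Cell g)) (a : Fin B) (y : Fin (g a)) (hT : ∀ c ∈ T, c a = y) :
    T.card * g a ≤ Fintype.card (Cell g) := by
  obtain ⟨T', h, -⟩ := exists_spread T a y hT
  rw [← h]
  exact card_le_univ _

theorem star2_card (T : Finset (Cell g)) (j a : Fin B) (hja : a ≠ j) (x : Fin (g j))
    (y : Fin (g a)) (hT : ∀ c ∈ T, c j = x ∧ c a = y) :
    T.card * g a * g j ≤ Fintype.card (Cell g) := by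
  obtain ⟨T', h, h'⟩ := exists_spread T a y (fun c hc => (hT c hc).2)
  rw [← h]
  refine star_card T' j x ?_
  intro c' hc'
  obtain ⟨c, hc, hcc⟩ := h' c' hc'
  rw [hcc j hja.symm, (hT c hc).1]

theorem card_mul_le_of_cover (T : Finset (Cell g)) (F : Fin B → Finset (Cell g)) (w Γ : ℕ)
    (hcov : ∀ c ∈ T, ∃ a, c ∈ F a) (hF : ∀ a, (F a).card * w ≤ Γ) : T.card * w ≤ B * Γ := by
  have h1 : T ⊆ univ.biUnion F := by
    intro c hc
    obtain ⟨a, ha⟩ := hcov c hc
    exact mem_biUnion.2 ⟨a, mem_univ _, ha⟩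
  have h2 : T.card ≤ ∑ a, (F a).card := (card_le_card h1).trans card_biUnion_le
  calc T.card * w ≤ (∑ a, (F a).card) * w := Nat.mul_le_mul_right _ h2
    _ = ∑ a, (F a).card * w := sum_mul _ _ _
    _ ≤ ∑ _a : Fin B, Γ := sum_le_sum (fun a _ => hF a)
    _ = B * Γ := by simp

theorem low_card {K : ℕ} (hK : ∀ a j : Fin B, a < j → K * g j ≤ g a) (j : Fin B) (c0 : Cell g)
    (T : Finset (Cell g)) (hT : ∀ c ∈ T, ∃ a, a < j ∧ c a = c0 a) :
    T.card * (K * g j) ≤ B * Fintype.card (Cell g) := by
  refine card_mul_le_of_cover T (fun a => univ.filter (fun c => a < j ∧ c a = c0 a)) _ _ ?_ ?_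
  · intro c hc
    obtain ⟨a, ha⟩ := hT c hc
    exact ⟨a, mem_filter.2 ⟨mem_univ _, ha⟩⟩
  · intro a
    by_cases ha : a < j
    · refine le_trans (Nat.mul_le_mul_left _ (hK a j ha)) (star_card _ a (c0 a) ?_)
      intro c hc
      exact (mem_filter.1 hc).2.2
    · simp [ha]

theorem codim_card {K : ℕ} (hK' : ∀ a : Fin B, K ≤ g a) (j : Fin B) (x : Fin (g j)) (c1 : Cell g)
    (T : Finset (Cell g)) (hT : ∀ c ∈ T, c j = x ∧ ∃ a, a ≠ j ∧ c a = c1 a) :
    T.card * (K * g j) ≤ B * Fintype.card (Cell g) := by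
  refine card_mul_le_of_cover T
    (fun a => univ.filter (fun c => a ≠ j ∧ c j = x ∧ c a = c1 a)) _ _ ?_ ?_
  · intro c hc
    obtain ⟨h1, a, ha⟩ := hT c hc
    exact ⟨a, mem_filter.2 ⟨mem_univ _, ha.1, h1, ha.2⟩⟩
  · intro a
    by_cases ha : a ≠ j
    · refine le_trans ?_ (star2_card (univ.filter (fun c => a ≠ j ∧ c j = x ∧ c a = c1 a))
        j a ha x (c1 a) ?_)
      · rw [← mul_assoc]
        exact Nat.mul_le_mul_right _ (Nat.mul_le_mul_left _ (hK' a))
      · intro c hc
        exact (mem_filter.1 hc).2.2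
    · simp [ha]

/-- In one round at most one scale is served efficiently. -/
theorem round_structure {K : ℕ} (hB : 0 < B) (hK : ∀ a j : Fin B, a < j → K * g j ≤ g a)
    (hK' : ∀ a : Fin B, K ≤ g a) (s : Fin B × Cell g → Prop) [DecidablePred s]
    (hcomp : ∀ p q, s p → s q → p.1 ≤ q.1 → ∃ a, a ≤ q.1 ∧ p.2 a = q.2 a) :
    ∃ (j0 : Fin B) (x0 : ℕ), ∀ j : Fin B,
      (univ.filter (fun c : Cell g => s (j, c) ∧ ¬ (j = j0 ∧ (c j : ℕ) = x0))).card * (K * g j)
        ≤ 2 * B * Fintype.card (Cell g) := by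
  set Γ := Fintype.card (Cell g) with hΓ
  have huniq : ∀ j j' : Fin B, j < j' →
      2 * B * Γ < (univ.filter (fun c : Cell g => s (j, c))).card * (K * g j) →
      2 * B * Γ < (univ.filter (fun c : Cell g => s (j', c))).card * (K * g j') → False := by
    intro j j' hjj h1 h2
    have hne : (univ.filter (fun c : Cell g => s (j, c))).Nonempty := by
      rw [← card_pos]
      by_contra h0
      have : (univ.filter (fun c : Cell g => s (j, c))).card = 0 := by omega
      rw [this] at h1
      omega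
    obtain ⟨c0, hc0⟩ := hne
    have hc0' := (mem_filter.1 hc0).2
    have hex : ∃ c1, s (j', c1) ∧ c1 j ≠ c0 j := by
      by_contra hcon
      push Not at hcon
      have h3 := star_card (univ.filter (fun c : Cell g => s (j', c))) j (c0 j)
        (fun c hc => hcon c (mem_filter.1 hc).2)
      have h4 := Nat.mul_le_mul_left (univ.filter (fun c : Cell g => s (j', c))).card (hK j j' hjj)
      have h5 : Γ ≤ 2 * B * Γ := Nat.le_mul_of_pos_left _ (by omega)
      omega
    obtain ⟨c1, hc1, hc1'⟩ := hex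
    have hsplit : (univ.filter (fun c : Cell g => s (j, c))) ⊆
        (univ.filter (fun c : Cell g => ∃ a, a < j ∧ c a = c0 a)) ∪
        (univ.filter (fun c : Cell g => c j = c0 j ∧ ∃ a, a ≠ j ∧ c a = c1 a)) := by
      intro c hc
      have hc' := (mem_filter.1 hc).2
      obtain ⟨a, ha, hca⟩ := hcomp (j, c) (j, c0) hc' hc0' le_rfl
      rcases lt_or_eq_of_le ha with ha | ha
      · exact mem_union_left _ (mem_filter.2 ⟨mem_univ _, a, ha, hca⟩)
      · simp only at ha
        subst ha
        obtain ⟨b, -, hcb⟩ := hcomp (a, c) (j', c1) hc' hc1 hjj.le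
        refine mem_union_right _ (mem_filter.2 ⟨mem_univ _, hca, b, ?_, hcb⟩)
        rintro rfl
        exact hc1' (hcb.symm.trans hca)
    have h6 := low_card hK j c0 (univ.filter (fun c : Cell g => ∃ a, a < j ∧ c a = c0 a))
      (fun c hc => (mem_filter.1 hc).2)
    have h7 := codim_card hK' j (c0 j) c1
      (univ.filter (fun c : Cell g => c j = c0 j ∧ ∃ a, a ≠ j ∧ c a = c1 a))
      (fun c hc => (mem_filter.1 hc).2)
    have h8 := (card_le_card hsplit).trans (card_union_le _ _)
    have h9 := Nat.mul_le_mul_right (K * g j) h8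
    rw [add_mul] at h9
    rw [← hΓ] at h6 h7
    have : 2 * B * Γ = B * Γ + B * Γ := by ring
    omega
  have hsub : ∀ (j j0 : Fin B) (x0 : ℕ),
      (univ.filter (fun c : Cell g => s (j, c) ∧ ¬ (j = j0 ∧ (c j : ℕ) = x0))).card ≤
      (univ.filter (fun c : Cell g => s (j, c))).card := by
    intro j j0 x0
    refine card_le_card ?_
    intro c hc
    exact mem_filter.2 ⟨mem_univ _, (mem_filter.1 hc).2.1⟩
  by_cases hbig : ∃ j0 : Fin B,
      2 * B * Γ < (univ.filter (fun c : Cell g => s (j0, c))).card * (K * g j0)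
  · obtain ⟨j0, h1⟩ := hbig
    have hne : (univ.filter (fun c : Cell g => s (j0, c))).Nonempty := by
      rw [← card_pos]
      by_contra h0
      have : (univ.filter (fun c : Cell g => s (j0, c))).card = 0 := by omega
      rw [this] at h1
      omega
    obtain ⟨c0, hc0⟩ := hne
    have hc0' := (mem_filter.1 hc0).2
    refine ⟨j0, c0 j0, ?_⟩
    intro j
    by_cases hj : j = j0
    · subst hj
      have h6 := low_card hK j c0
        (univ.filter (fun c : Cell g => s (j, c) ∧ ¬ (j = j ∧ (c j : ℕ) = c0 j))) (by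
          intro c hc
          obtain ⟨hc1, hc2⟩ := (mem_filter.1 hc).2
          obtain ⟨a, ha, hca⟩ := hcomp (j, c) (j, c0) hc1 hc0' le_rfl
          refine ⟨a, lt_of_le_of_ne ha ?_, hca⟩
          rintro rfl
          exact hc2 ⟨rfl, congrArg Fin.val hca⟩)
      rw [← hΓ] at h6
      have : 2 * B * Γ = B * Γ + B * Γ := by ring
      omega
    · refine le_trans (Nat.mul_le_mul_right _ (hsub j j0 _)) ?_
      by_contra hcon
      push Not at hcon
      rcases lt_or_gt_of_ne hj with hlt | hlt
      · exact huniq j j0 hlt hcon h1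
      · exact huniq j0 j hlt h1 hcon
  · push Not at hbig
    refine ⟨⟨0, hB⟩, 0, ?_⟩
    intro j
    exact le_trans (Nat.mul_le_mul_right _ (hsub j _ _)) (hbig j)

/-- Book-keeping of the services received by the cells during a block of rounds. -/
def Acc (g : Fin B → ℕ) (K : ℕ) (n : ℕ) (σ : Fin B × Cell g → ℕ) : Prop :=
  ∃ (τ : (j : Fin B) → Fin (g j) → ℕ) (u : Fin B × Cell g → ℕ),
    ∑ j, ∑ x, τ j x ≤ n ∧
    (∀ j, (∑ c, u (j, c)) * (K * g j) ≤ n * (2 * B * Fintype.card (Cell g))) ∧
    ∀ j c, σ (j, c) ≤ τ j (c j) + u (j, c)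

theorem Acc.zero (K : ℕ) : Acc g K 0 (fun _ => 0) :=
  ⟨fun _ _ => 0, fun _ => 0, by simp, by simp, by simp⟩

theorem Acc.step {K : ℕ} (hB : 0 < B) (hK : ∀ a j : Fin B, a < j → K * g j ≤ g a)
    (hK' : ∀ a : Fin B, K ≤ g a) (s : Fin B × Cell g → Prop) [DecidablePred s]
    (hcomp : ∀ p q, s p → s q → p.1 ≤ q.1 → ∃ a, a ≤ q.1 ∧ p.2 a = q.2 a)
    {n : ℕ} {σ : Fin B × Cell g → ℕ} (h : Acc g K n σ) :
    Acc g K (n + 1) (fun i => σ i + if s i then 1 else 0) := by
  obtain ⟨τ, u, h1, h2, h3⟩ := h
  obtain ⟨j0, x0, hj⟩ := round_structure hB hK hK' s hcomp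
  refine ⟨fun j x => τ j x + if j = j0 ∧ (x : ℕ) = x0 then 1 else 0,
    fun p => u p + if s p ∧ ¬ (p.1 = j0 ∧ (p.2 p.1 : ℕ) = x0) then 1 else 0, ?_, ?_, ?_⟩
  · simp only [sum_add_distrib]
    have h4 : ∑ j : Fin B, ∑ x : Fin (g j), (if j = j0 ∧ (x : ℕ) = x0 then 1 else 0) ≤ 1 := by
      rw [sum_eq_single j0]
      · simp only [true_and]
        rw [← card_filter]
        refine card_le_one.2 ?_
        intro a ha b hb
        exact Fin.ext ((mem_filter.1 ha).2.trans (mem_filter.1 hb).2.symm)
      · intro j _ hj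
        simp [hj]
      · simp
    omega
  · intro j
    simp only [sum_add_distrib]
    rw [← card_filter, add_mul, add_mul, one_mul]
    exact Nat.add_le_add (h2 j) (hj j)
  · intro j c
    have := h3 j c
    simp only
    by_cases hs : s (j, c)
    · by_cases hx : j = j0 ∧ (c j : ℕ) = x0
      · simp only [hs, if_true, if_pos hx]
        omega
      · simp only [hs, if_true, hx, not_false_eq_true, and_self]
        omega
    · simp only [hs, if_false]
      omega

theorem markov {α : Type} [Fintype α] (u : α → ℕ) (l : ℕ) :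
    (univ.filter (fun x => l < u x)).card * (l + 1) ≤ ∑ x, u x := by
  calc (univ.filter (fun x => l < u x)).card * (l + 1)
      = ∑ _x ∈ univ.filter (fun x => l < u x), (l + 1) := by simp
    _ ≤ ∑ x ∈ univ.filter (fun x => l < u x), u x :=
        sum_le_sum (fun x hx => (mem_filter.1 hx).2)
    _ ≤ ∑ x, u x := sum_le_sum_of_subset (filter_subset _ _)

/-- A set of cells that contains a large box, free in the coordinates `≥ j`,
up to few exceptions. -/
def Good (g : Fin B → ℕ) (D : ℕ) (j : ℕ) (C : Cell g → Prop) : Prop :=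
  ∃ (R : (a : Fin B) → Finset (Fin (g a))) (E : Finset (Cell g)),
    (∀ a, g a ≤ 2 * (R a).card) ∧ (∀ a : Fin B, j ≤ (a : ℕ) → R a = univ) ∧
    E.card * D ≤ j * Fintype.card (Cell g) ∧ ∀ c : Cell g, (∀ a, c a ∈ R a) → c ∉ E → C c

theorem Good.mono {D j j' : ℕ} {C C' : Cell g → Prop} (h : Good g D j C) (hj : j ≤ j')
    (hC : ∀ c, C c → C' c) : Good g D j' C' := by
  obtain ⟨R, E, h1, h2, h3, h4⟩ := h
  exact ⟨R, E, h1, fun a ha => h2 a (hj.trans ha), h3.trans (Nat.mul_le_mul_right _ hj),
    fun c hc hE => hC c (h4 c hc hE)⟩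

theorem Good.init (D : ℕ) {C : Cell g → Prop} (hC : ∀ c, C c) : Good g D 0 C :=
  ⟨fun _ => univ, ∅, fun a => by simp; omega, fun _ _ => rfl, by simp, fun c _ _ => hC c⟩

theorem Good.nonempty {D j : ℕ} {C : Cell g → Prop} (h : Good g D j C) (hj : j ≤ B)
    (hg : ∀ a, 0 < g a) (hD : 2 ^ B * B < D) : ∃ c, C c := by
  obtain ⟨R, E, h1, -, h3, h4⟩ := h
  by_contra hcon
  push Not at hcon
  have hsub : Fintype.piFinset R ⊆ E := by
    intro c hc
    by_contra hE
    exact hcon c (h4 c (fun a => Fintype.mem_piFinset.1 hc a) hE)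
  have h5 : Fintype.card (Cell g) ≤ 2 ^ B * (Fintype.piFinset R).card := by
    rw [Fintype.card_piFinset, Fintype.card_pi]
    calc ∏ a, Fintype.card (Fin (g a)) ≤ ∏ a, 2 * (R a).card :=
          prod_le_prod' (fun a _ => by simpa using h1 a)
      _ = 2 ^ B * ∏ a, (R a).card := by rw [prod_mul_distrib]; simp
  have hΓ : 0 < Fintype.card (Cell g) := by
    rw [Fintype.card_pi]
    exact prod_pos (fun a _ => by simpa using hg a)
  have h6 := card_le_card hsub
  have h7 : Fintype.card (Cell g) * D ≤ 2 ^ B * B * Fintype.card (Cell g) := by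
    calc Fintype.card (Cell g) * D ≤ 2 ^ B * E.card * D :=
          Nat.mul_le_mul_right _ (h5.trans (Nat.mul_le_mul_left _ h6))
      _ = 2 ^ B * (E.card * D) := by ring
      _ ≤ 2 ^ B * (B * Fintype.card (Cell g)) :=
          Nat.mul_le_mul_left _ (h3.trans (Nat.mul_le_mul_right _ hj))
      _ = 2 ^ B * B * Fintype.card (Cell g) := by ring
  have h8 : 2 ^ B * B * Fintype.card (Cell g) < D * Fintype.card (Cell g) :=
    Nat.mul_lt_mul_of_pos_right hD hΓ
  rw [mul_comm D] at h8
  omega

theorem Good.next {D l : ℕ} (j : Fin B) {C : Cell g → Prop} (h : Good g D j C)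
    (τ : Fin (g j) → ℕ) (u : Cell g → ℕ) (hτ : 2 * ∑ x, τ x ≤ l * g j)
    (hu : (∑ c, u c) * D ≤ l * Fintype.card (Cell g)) :
    Good g D (j + 1) (fun c => C c ∧ τ (c j) ≤ l ∧ u c ≤ l) := by
  obtain ⟨R, E, h1, h2, h3, h4⟩ := h
  refine ⟨Function.update R j (univ.filter (fun x => ¬ l < τ x)),
    E ∪ univ.filter (fun c => l < u c), ?_, ?_, ?_, ?_⟩
  · intro a
    by_cases ha : a = j
    · subst ha
      rw [Function.update_self]
      have h5 := markov τ l
      have h6 := card_filter_add_card_filter_not (s := (univ : Finset (Fin (g a))))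
        (fun x => l < τ x)
      rw [card_univ, Fintype.card_fin] at h6
      have h7 : 2 * (univ.filter (fun x => l < τ x)).card ≤ g a := by
        by_contra hcon
        push Not at hcon
        have h8 : g a * (l + 1) ≤ 2 * (univ.filter (fun x => l < τ x)).card * (l + 1) :=
          Nat.mul_le_mul_right _ hcon.le
        have h9 : g a * (l + 1) = l * g a + g a := by ring
        have h10 : 2 * (univ.filter (fun x => l < τ x)).card * (l + 1) =
          2 * ((univ.filter (fun x => l < τ x)).card * (l + 1)) := by ring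
        have h11 : g a = 0 := by omega
        omega
      omega
    · rw [Function.update_of_ne ha]
      exact h1 a
  · intro a ha
    have : a ≠ j := by
      rintro rfl
      omega
    rw [Function.update_of_ne this]
    exact h2 a (by omega)
  · have h5 := markov u l
    have h6 : (univ.filter (fun c => l < u c)).card * D ≤ Fintype.card (Cell g) := by
      have h7 : (univ.filter (fun c => l < u c)).card * D * (l + 1) ≤
          Fintype.card (Cell g) * (l + 1) := by
        calc (univ.filter (fun c => l < u c)).card * D * (l + 1)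
            = (univ.filter (fun c => l < u c)).card * (l + 1) * D := by ring
          _ ≤ (∑ c, u c) * D := Nat.mul_le_mul_right _ h5
          _ ≤ l * Fintype.card (Cell g) := hu
          _ ≤ Fintype.card (Cell g) * (l + 1) := by nlinarith
      exact Nat.le_of_mul_le_mul_right h7 (by omega)
    have h8 := Nat.mul_le_mul_right D (card_union_le E (univ.filter (fun c => l < u c)))
    rw [add_mul] at h8
    rw [add_mul, one_mul]
    omega
  · intro c hc hE
    rw [mem_union, not_or] at hE
    refine ⟨h4 c ?_ hE.1, ?_, ?_⟩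
    · intro a
      by_cases ha : a = j
      · subst ha
        rw [h2 a le_rfl]
        exact mem_univ _
      · have := hc a
        rwa [Function.update_of_ne ha] at this
    · have := hc j
      rw [Function.update_self] at this
      have := (mem_filter.1 this).2
      omega
    · have := hE.2
      rw [mem_filter] at this
      by_contra hcon
      exact this ⟨mem_univ _, by omega⟩

end Pool.Agent.P.MP_7fcf1c_co
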