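import Mathlib

set_option autoImplicit false

namespace Pool.Agent.P.MP_7fcf1c_co

open Finset

variable {V : Type} [DecidableEq V]

/-- Positions of the on-line list colouring game that Lister wins. -/
inductive Win (G : SimpleGraph V) : Finset V → (V → ℕ) → Prop
  | dead (S : Finset V) (f : V → ℕ) (v : V) (hv : v ∈ S) (h0 : f v = 0) : Win G S f
  | step (S : Finset V) (f : V → ℕ) (M : Finset V) (hM : M ⊆ S) (hne : M.Nonempty)
      (h : ∀ I : Finset V, I ⊆ M → G.IsIndepSet (↑I : Set V) →
        Win G (S \ I) (fun v => if v ∈ M \ I then f v - 1 else f v)) : Win G S f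

theorem Win.not_paint {G : SimpleGraph V} {S0 : Finset V} {f0 : V → ℕ} (hW : Win G S0 f0) :
    ¬ (∀ P : Finset V → (V → ℕ) → Prop,
          (∀ (S : Finset V) (f : V → ℕ), (∀ v ∈ S, 1 ≤ f v) →
            (∀ M ⊆ S, M.Nonempty → ∃ I ⊆ M, G.IsIndepSet (↑I : Set V) ∧
               P (S \ I) (fun v => if v ∈ M \ I then f v - 1 else f v)) →
            P S f) →
          P S0 f0) := by
  intro h
  refine h (fun S f => ¬ Win G S f) ?_ hW
  intro S f h1 h2 hw
  cases hw with
  | dead _ _ v hv h0 =>
    have := h1 v hv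
    omega
  | step _ _ M hM hne hh =>
    obtain ⟨I, hI, hind, hn⟩ := h2 M hM hne
    exact hn (hh I hI hind)

theorem Win.round {G : SimpleGraph V} {S : Finset V} {f : V → ℕ} (M : Finset V) (hM : M ⊆ S)
    (h : ∀ (I : Finset V) (f' : V → ℕ), I ⊆ M → G.IsIndepSet (↑I : Set V) →
      (∀ v, f' v ≤ f v) → (∀ v ∈ M, v ∉ I → f' v + 1 ≤ f v) → Win G (S \ I) f') :
    Win G S f := by
  by_cases h0 : ∃ v ∈ S, f v = 0
  · obtain ⟨v, hv, h0⟩ := h0
    exact Win.dead S f v hv h0
  push Not at h0
  rcases M.eq_empty_or_nonempty with hMe | hne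
  · have := h ∅ f (empty_subset _) (by simp) (fun _ => le_rfl) (by simp [hMe])
    simpa using this
  · refine Win.step S f M hM hne ?_
    intro I hI hind
    refine h I _ hI hind ?_ ?_
    · intro v
      split_ifs <;> omega
    · intro v hv hvI
      have h1 : v ∈ M \ I := mem_sdiff.2 ⟨hv, hvI⟩
      have h2 := h0 v (hM hv)
      rw [if_pos h1]
      omega

theorem card_sdiff_add_le {A P I : Finset V} {m : ℕ} (hA : A ⊆ P) (h : ¬ m ≤ (P ∩ I).card) :
    A.card ≤ (A \ I).card + m := by
  have h1 : (A ∩ I).card ≤ (P ∩ I).card := card_le_card (inter_subset_inter_right hA)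
  have h2 := card_sdiff_add_card_inter A I
  omega

/-- A block of `2 * T` rounds played simultaneously on disjoint vertex sets `P i`. -/
theorem Win.play {G : SimpleGraph V} {ι : Type} [Fintype ι] [DecidableEq ι]
    (P : ι → Finset V) (m : ι → ℕ) (Acc : ℕ → (ι → ℕ) → Prop)
    (hdisj : ∀ i j, i ≠ j → Disjoint (P i) (P j))
    (hA0 : Acc 0 (fun _ => 0))
    (hAs : ∀ (n : ℕ) (σ : ι → ℕ) (I : Finset V), G.IsIndepSet (↑I : Set V) → Acc n σ →
      Acc (n + 1) (fun i => σ i + if m i ≤ (P i ∩ I).card then 1 else 0))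
    (S : Finset V) (f : V → ℕ) (hPS : ∀ i, P i ⊆ S) (T : ℕ)
    (hfin : ∀ (S' : Finset V) (f' : V → ℕ) (σ : ι → ℕ) (Z : ι → Finset V),
      Acc (2 * T) σ → (∀ v, f' v ≤ f v) → (∀ v ∈ S, (∀ i, v ∉ P i) → v ∈ S') →
      (∀ i, Z i ⊆ P i ∧ Z i ⊆ S' ∧ (P i).card ≤ 2 ^ σ i * ((Z i).card + T * (2 * m i + 1)) ∧
        ∀ v ∈ Z i, f' v + T ≤ f v + σ i) → Win G S' f') :
    Win G S f := by
  have key : ∀ (r t : ℕ), t + r = T →
      ∀ (S' : Finset V) (f' : V → ℕ) (σ : ι → ℕ) (Z : ι → Finset V),
      Acc (2 * t) σ → (∀ v, f' v ≤ f v) → (∀ v ∈ S, (∀ i, v ∉ P i) → v ∈ S') →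
      (∀ i, Z i ⊆ P i ∧ Z i ⊆ S' ∧ (P i).card ≤ 2 ^ σ i * ((Z i).card + t * (2 * m i + 1)) ∧
        ∀ v ∈ Z i, f' v + t ≤ f v + σ i) → Win G S' f' := by
    intro r
    induction r with
    | zero =>
      intro t ht
      have : t = T := by omega
      subst this
      exact hfin
    | succ r ih =>
      intro t ht S' f' σ Z hAcc hf hrest hZ
      have hex : ∀ i, ∃ A ⊆ Z i, A.card = (Z i).card / 2 := fun i =>
        exists_subset_card_eq (Nat.div_le_self _ _)
      choose A hAZ hAc using hex
      have hAP : ∀ i, A i ⊆ P i := fun i => (hAZ i).trans (hZ i).1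
      have hBP : ∀ i, Z i \ A i ⊆ P i := fun i => sdiff_subset.trans (hZ i).1
      have hsame : ∀ i j v, v ∈ P i → v ∈ P j → i = j := by
        intro i j v hi hj
        by_contra hne
        exact disjoint_left.1 (hdisj i j hne) hi hj
      refine Win.round (univ.biUnion A) ?_ ?_
      · intro v hv
        obtain ⟨i, -, hi⟩ := mem_biUnion.1 hv
        exact (hZ i).2.1 (hAZ i hi)
      intro I1 f1 hI1 hind1 hf1 hf1'
      have hBI1 : ∀ i v, v ∈ Z i \ A i → v ∉ I1 := by
        intro i v hv hvI
        obtain ⟨j, -, hj⟩ := mem_biUnion.1 (hI1 hvI)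
        have := hsame i j v (hBP i hv) (hAP j hj)
        subst this
        exact (mem_sdiff.1 hv).2 hj
      refine Win.round ((univ.filter (fun i => ¬ m i ≤ (P i ∩ I1).card)).biUnion
        (fun i => Z i \ A i)) ?_ ?_
      · intro v hv
        obtain ⟨i, -, hi⟩ := mem_biUnion.1 hv
        exact mem_sdiff.2 ⟨(hZ i).2.1 (mem_sdiff.1 hi).1, hBI1 i v hi⟩
      intro I2 f2 hI2 hind2 hf2 hf2'
      have hAI2 : ∀ i v, v ∈ A i → v ∉ I2 := by
        intro i v hv hvI
        obtain ⟨j, -, hj⟩ := mem_biUnion.1 (hI2 hvI)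
        have := hsame i j v (hAP i hv) (hBP j hj)
        subst this
        exact (mem_sdiff.1 hj).2 hv
      have hBI2 : ∀ i v, m i ≤ (P i ∩ I1).card → v ∈ Z i \ A i → v ∉ I2 := by
        intro i v hs hv hvI
        obtain ⟨j, hj1, hj⟩ := mem_biUnion.1 (hI2 hvI)
        have := hsame i j v (hBP i hv) (hBP j hj)
        subst this
        exact (mem_filter.1 hj1).2 hs
      have hAcc2 := hAs _ _ I2 hind2 (hAs _ _ I1 hind1 hAcc)
      refine ih (t + 1) (by omega) _ f2 _
        (fun i => if m i ≤ (P i ∩ I1).card then Z i \ A i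
          else if m i ≤ (P i ∩ I2).card then A i \ I1 else (A i \ I1) ∪ ((Z i \ A i) \ I2))
        (by rw [show 2 * (t + 1) = 2 * t + 1 + 1 by ring]; exact hAcc2)
        (fun v => (hf2 v).trans ((hf1 v).trans (hf v))) ?_ ?_
      · intro v hv hvP
        refine mem_sdiff.2 ⟨mem_sdiff.2 ⟨hrest v hv hvP, ?_⟩, ?_⟩
        · intro hvI
          obtain ⟨j, -, hj⟩ := mem_biUnion.1 (hI1 hvI)
          exact hvP j (hAP j hj)
        · intro hvI
          obtain ⟨j, -, hj⟩ := mem_biUnion.1 (hI2 hvI)
          exact hvP j (hBP j hj)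
      intro i
      obtain ⟨hZP, hZS, hcard, htok⟩ := hZ i
      have hBc : (Z i \ A i).card + (A i).card = (Z i).card := card_sdiff_add_card_eq_card (hAZ i)
      have hAci := hAc i
      have hpos : 0 < 2 ^ σ i := by positivity
      by_cases h1 : m i ≤ (P i ∩ I1).card
      · simp only [if_pos h1]
        refine ⟨hBP i, ?_, ?_, ?_⟩
        · intro v hv
          exact mem_sdiff.2 ⟨mem_sdiff.2 ⟨hZS (mem_sdiff.1 hv).1, hBI1 i v hv⟩, hBI2 i v h1 hv⟩
        · refine hcard.trans ?_
          have e1 : 2 ^ σ i * 2 ≤ 2 ^ (σ i + 1 + if m i ≤ (P i ∩ I2).card then 1 else 0) := by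
            rw [← pow_succ]
            exact Nat.pow_le_pow_right (by norm_num) (by omega)
          refine le_trans ?_ (Nat.mul_le_mul_right _ e1)
          rw [mul_assoc]
          refine Nat.mul_le_mul_left _ ?_
          have : (t + 1) * (2 * m i + 1) = t * (2 * m i + 1) + (2 * m i + 1) := by ring
          omega
        · intro v hv
          have := htok v (mem_sdiff.1 hv).1
          have := hf2 v
          have := hf1 v
          omega
      · have hA1 : (A i).card ≤ (A i \ I1).card + m i := card_sdiff_add_le (hAP i) h1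
        have htokA : ∀ v ∈ A i \ I1, f2 v + 1 ≤ f' v := by
          intro v hv
          have := hf1' v (mem_biUnion.2 ⟨i, mem_univ _, (mem_sdiff.1 hv).1⟩) (mem_sdiff.1 hv).2
          have := hf2 v
          omega
        have hSA : ∀ v ∈ A i \ I1, v ∈ (S' \ I1) \ I2 := by
          intro v hv
          exact mem_sdiff.2 ⟨mem_sdiff.2 ⟨hZS (hAZ i (mem_sdiff.1 hv).1), (mem_sdiff.1 hv).2⟩,
            hAI2 i v (mem_sdiff.1 hv).1⟩
        by_cases h2 : m i ≤ (P i ∩ I2).card
        · simp only [if_neg h1, if_pos h2]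
          refine ⟨sdiff_subset.trans (hAP i), hSA, ?_, ?_⟩
          · refine hcard.trans ?_
            rw [add_zero, pow_succ, mul_assoc]
            refine Nat.mul_le_mul_left _ ?_
            have : (t + 1) * (2 * m i + 1) = t * (2 * m i + 1) + (2 * m i + 1) := by ring
            omega
          · intro v hv
            have := htok v (hAZ i (mem_sdiff.1 hv).1)
            have := htokA v hv
            omega
        · have hB2 : (Z i \ A i).card ≤ ((Z i \ A i) \ I2).card + m i :=
            card_sdiff_add_le (hBP i) h2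
          simp only [if_neg h1, if_neg h2]
          refine ⟨union_subset (sdiff_subset.trans (hAP i)) (sdiff_subset.trans (hBP i)),
            ?_, ?_, ?_⟩
          · intro v hv
            rcases mem_union.1 hv with hv | hv
            · exact hSA v hv
            · have h3 := mem_sdiff.1 hv
              exact mem_sdiff.2 ⟨mem_sdiff.2 ⟨hZS (mem_sdiff.1 h3.1).1, hBI1 i v h3.1⟩, h3.2⟩
          · refine hcard.trans ?_
            rw [add_zero, add_zero]
            refine Nat.mul_le_mul_left _ ?_
            have hd : Disjoint (A i \ I1) ((Z i \ A i) \ I2) := by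
              refine disjoint_left.2 ?_
              intro v hv hv'
              exact (mem_sdiff.1 (mem_sdiff.1 hv').1).2 (mem_sdiff.1 hv).1
            rw [card_union_of_disjoint hd]
            have : (t + 1) * (2 * m i + 1) = t * (2 * m i + 1) + (2 * m i + 1) := by ring
            omega
          · intro v hv
            rcases mem_union.1 hv with hv | hv
            · have := htok v (hAZ i (mem_sdiff.1 hv).1)
              have := htokA v hv
              omega
            · have h3 := mem_sdiff.1 hv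
              have := htok v (mem_sdiff.1 h3.1).1
              have := hf2' v (mem_biUnion.2 ⟨i, mem_filter.2 ⟨mem_univ _, h1⟩, h3.1⟩) h3.2
              have := hf1 v
              omega
  refine key T 0 (by omega) S f (fun _ => 0) P (by simpa using hA0) (fun _ => le_rfl)
    (fun v hv _ => hv) ?_
  intro i
  refine ⟨Subset.rfl, hPS i, by simp, by simp⟩

end Pool.Agent.P.MP_7fcf1c_co
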