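import Pool.Agent.P.MP_7fcf1c_co.Game
import Pool.Agent.P.MP_7fcf1c_co.Cells

set_option autoImplicit false

namespace Pool.Agent.P.MP_7fcf1c_co

open Finset

theorem exists_split_nat {V : Type} [DecidableEq V] (d : ℕ) :
    ∀ (n : ℕ) (T : Finset V), n * d ≤ T.card → ∃ A : ℕ → Finset V,
      (∀ j, A j ⊆ T) ∧ (∀ j j', j ≠ j' → Disjoint (A j) (A j')) ∧ ∀ j, j < n → (A j).card = d := by
  intro n
  induction n with
  | zero =>
    intro T _
    exact ⟨fun _ => ∅, by simp, by simp, by simp⟩
  | succ n ih =>
    intro T hT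
    have h1 : d ≤ T.card := le_trans (by nlinarith) hT
    obtain ⟨A0, hA0, hc⟩ := exists_subset_card_eq h1
    have h2 : n * d ≤ (T \ A0).card := by
      have := card_sdiff_add_card_eq_card hA0
      have : (n + 1) * d = n * d + d := by ring
      omega
    obtain ⟨A, h3, h4, h5⟩ := ih (T \ A0) h2
    refine ⟨fun j => if j = n then A0 else A j, ?_, ?_, ?_⟩
    · intro j
      by_cases hj : j = n
      · simpa [hj] using hA0
      · simpa [hj] using (h3 j).trans sdiff_subset
    · intro j j' hjj
      have hd : ∀ i, Disjoint A0 (A i) := fun i =>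
        disjoint_of_subset_right (h3 i) disjoint_sdiff
      by_cases hj : j = n
      · have hj' : j' ≠ n := fun h => hjj (hj.trans h.symm)
        simpa [hj, hj'] using hd j'
      · by_cases hj' : j' = n
        · simpa [hj, hj'] using (hd j).symm
        · simpa [hj, hj'] using h4 j j' hjj
    · intro j hj
      by_cases hjn : j = n
      · simpa [hjn] using hc
      · simpa [hjn] using h5 j (by omega)

theorem exists_split {V : Type} [DecidableEq V] (B d : ℕ) (T : Finset V) :
    ∃ A : Fin B → Finset V, (∀ j, A j ⊆ T) ∧ (∀ j j', j ≠ j' → Disjoint (A j) (A j')) ∧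
      (∀ j, (A j).card ≤ d) ∧ (B * d ≤ T.card → ∀ j, (A j).card = d) := by
  by_cases h : B * d ≤ T.card
  · obtain ⟨A, h1, h2, h3⟩ := exists_split_nat d B T h
    exact ⟨fun j => A j, fun j => h1 j, fun j j' hj => h2 j j' (fun h => hj (Fin.ext h)),
      fun j => (h3 j j.2).le, fun _ j => h3 j j.2⟩
  · exact ⟨fun _ => ∅, by simp, by simp, by simp, fun h' => absurd h' h⟩

theorem lister_wins {V : Type} [Fintype V] [DecidableEq V] (G : SimpleGraph V)
    {B : ℕ} {g : Fin B → ℕ} {K D T H w : ℕ} (cell : V → Cell g) (m u l : ℕ → ℕ)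
    (hHB : H < B) (hK0 : 0 < K)
    (hK : ∀ a j : Fin B, a < j → K * g j ≤ g a) (hK' : ∀ a : Fin B, K ≤ g a)
    (hm : Antitone m) (hu : Antitone u) (hu0 : ∀ j, 0 < u j)
    (hcompat : ∀ (J : Fin B) (X Y : Finset V) (c c' : Cell g), (∀ v ∈ X, cell v = c) →
      (∀ v ∈ Y, cell v = c') → m J ≤ X.card → m J ≤ Y.card → (∀ a, a ≤ J → c a ≠ c' a) →
      ∃ x ∈ X, ∃ y ∈ Y, G.Adj x y)
    (c1 : ∀ c, (H * (B + 1) + 1) * B * u 0 ≤ (univ.filter (fun v => cell v = c)).card)
    (c2 : ∀ j, j < B →
      2 ^ (2 * l j) * ((H * (B + 1) + 1) * B * u (j + 1) + T * (2 * m j + 1)) ≤ u j)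
    (c3 : ∀ j, j < B → w + 2 * l j ≤ T)
    (c4 : ∀ j : Fin B, 4 * T ≤ (B - H) * (l j * g j))
    (c5 : ∀ j : Fin B, 4 * T * B * D ≤ l j * (K * g j))
    (c6 : 2 ^ B * B < D)
    (f0 : V → ℕ) (hf0 : ∀ v, f0 v ≤ H * w) : Win G univ f0 := by
  have hB : 0 < B := by omega
  have hg : ∀ a, 0 < g a := fun a => lt_of_lt_of_le hK0 (hK' a)
  have key : ∀ Φ : ℕ, Φ ≤ H * (B + 1) → ∀ (S : Finset V) (f : V → ℕ) (b : ℕ → ℕ)
      (U : ℕ → Finset V), ∑ h ∈ range H, b (h + 1) ≤ Φ → b 0 = 0 → (∀ h, b h ≤ B + 1) →
      (∀ h h', h ≠ h' → Disjoint (U h) (U h')) → (∀ h, U h ⊆ S) →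
      (∀ h, ∀ v ∈ U h, f v + h * w ≤ H * w) →
      (∀ h, b h ≤ B → Good g D (b h)
        (fun c => (Φ + 1) * B * u (b h) ≤ ((U h).filter (fun v => cell v = c)).card)) →
      Win G S f := by
    intro Φ
    induction Φ using Nat.strong_induction_on with
    | _ Φ ih =>
    intro hΦ S f b U hsum hb0 hbB hUd hUS htok hgood
    by_cases hbH : b H ≤ B
    · obtain ⟨c, hc⟩ := (hgood H hbH).nonempty hbH hg c6
      have hpos : 0 < (Φ + 1) * B * u (b H) := by
        have := hu0 (b H)
        positivity
      obtain ⟨v, hv⟩ := card_pos.1 (lt_of_lt_of_le hpos hc)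
      have hv' := (mem_filter.1 hv).1
      have := htok H v hv'
      exact Win.dead S f v (hUS H hv') (by omega)
    -- the level of the stock that feeds scale `j`
    set hh : ℕ → ℕ := fun j => Nat.findGreatest (fun h => b h ≤ j) H with hhh
    have hh1 : ∀ j, b (hh j) ≤ j := fun j =>
      Nat.findGreatest_spec (P := fun h => b h ≤ j) (Nat.zero_le H) (by simp [hb0])
    have hh2 : ∀ j, j < B → hh j < H := by
      intro j hj
      have h1 : hh j ≤ H := Nat.findGreatest_le H
      have h2 := hh1 j
      rcases lt_or_eq_of_le h1 with h3 | h3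
      · exact h3
      · rw [h3] at h2
        omega
    have hh3 : ∀ j, j < B → j < b (hh j + 1) := by
      intro j hj
      have := Nat.findGreatest_is_greatest (P := fun h => b h ≤ j) (n := H) (k := hh j + 1)
        (Nat.lt_succ_self _) (hh2 j hj)
      simpa using this
    have huse : B - H ≤ (univ.filter (fun j : Fin B => (j : ℕ) + 1 < b (hh j + 1))).card := by
      have h1 := card_filter_add_card_filter_not (s := (univ : Finset (Fin B)))
        (fun j : Fin B => (j : ℕ) + 1 < b (hh j + 1))
      rw [card_univ, Fintype.card_fin] at h1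
      have h2 : (univ.filter (fun j : Fin B => ¬ (j : ℕ) + 1 < b (hh j + 1))).card ≤
          (range H).card := by
        refine card_le_card_of_injOn (fun j => hh j) ?_ ?_
        · intro j _
          simpa using hh2 j j.2
        · intro j hj j' hj' hjj
          have h3 := (mem_filter.1 (mem_coe.1 hj)).2
          have h4 := (mem_filter.1 (mem_coe.1 hj')).2
          have h5 := hh3 j j.2
          have h6 := hh3 j' j'.2
          simp only at hjj
          rw [hjj] at h3 h5
          exact Fin.ext (by omega)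
      rw [card_range] at h2
      omega
    choose A hAT hAd hAle hAeq using fun (h : ℕ) (c : Cell g) =>
      exists_split B (u (b h)) ((U h).filter (fun v => cell v = c))
    set P : Fin B × Cell g → Finset V := fun p => A (hh p.1) p.2 p.1 with hP
    have hPU : ∀ p : Fin B × Cell g, ∀ v ∈ P p, v ∈ U (hh p.1) ∧ cell v = p.2 :=
      fun p v hv => mem_filter.1 (hAT _ _ _ hv)
    refine Win.play P (fun p => m p.1) (Acc g K) ?_ (Acc.zero K) ?_ S f ?_ T ?_
    · rintro ⟨j, c⟩ ⟨j', c'⟩ hne
      refine disjoint_left.2 ?_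
      intro v hv hv'
      obtain ⟨h1, h2⟩ := hPU _ v hv
      obtain ⟨h3, h4⟩ := hPU _ v hv'
      simp only at h1 h2 h3 h4
      have hc : c = c' := h2.symm.trans h4
      subst hc
      have hj : j ≠ j' := fun h => hne (by rw [h])
      by_cases hhj : hh j = hh j'
      · simp only [hP] at hv hv'
        rw [← hhj] at hv'
        exact disjoint_left.1 (hAd (hh j) c j j' hj) hv hv'
      · exact disjoint_left.1 (hUd _ _ hhj) h1 h3
    · intro n σ I hI hAcc
      refine Acc.step hB hK hK' (fun p => m p.1 ≤ (P p ∩ I).card) ?_ hAcc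
      intro p q hp hq hpq
      by_contra hcon
      push Not at hcon
      obtain ⟨x, hx, y, hy, hxy⟩ := hcompat q.1 (P p ∩ I) (P q ∩ I) p.2 q.2
        (fun v hv => (hPU p v (mem_inter.1 hv).1).2) (fun v hv => (hPU q v (mem_inter.1 hv).1).2)
        (le_trans (hm hpq) hp) hq hcon
      exact hI (mem_coe.2 (mem_inter.1 hx).2) (mem_coe.2 (mem_inter.1 hy).2) hxy.ne hxy
    · intro p v hv
      exact hUS _ (hPU p v hv).1
    intro S' f' σ Z hAcc hf hrest hZ
    obtain ⟨τ, uu, hτ, huu, hσ⟩ := hAcc
    -- a useful scale that was served little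
    have hex : ∃ j : Fin B, (j : ℕ) + 1 < b (hh j + 1) ∧ (B - H) * ∑ x, τ j x ≤ 2 * T := by
      by_contra hcon
      push Not at hcon
      set J := univ.filter (fun j : Fin B => (j : ℕ) + 1 < b (hh j + 1)) with hJ
      have h1 : ∑ j ∈ J, (2 * T + 1) ≤ ∑ j ∈ J, (B - H) * ∑ x, τ j x :=
        sum_le_sum (fun j hj => hcon j (mem_filter.1 hj).2)
      have h2 : ∑ j ∈ J, (B - H) * ∑ x, τ j x ≤ (B - H) * (2 * T) := by
        rw [← mul_sum]
        exact Nat.mul_le_mul_left _ ((sum_le_sum_of_subset (subset_univ _)).trans hτ)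
      rw [sum_const, smul_eq_mul] at h1
      have h3 : (B - H) * (2 * T + 1) ≤ J.card * (2 * T + 1) := Nat.mul_le_mul_right _ huse
      have h4 : (B - H) * (2 * T + 1) = (B - H) * (2 * T) + (B - H) := by ring
      omega
    obtain ⟨j, hj1, hj2⟩ := hex
    have hjH := hh2 j j.2
    have hτj : 2 * ∑ x, τ j x ≤ l j * g j := by
      have h1 : (B - H) * (2 * ∑ x, τ j x) ≤ (B - H) * (l j * g j) := by
        have := c4 j
        have : (B - H) * (2 * ∑ x, τ j x) = 2 * ((B - H) * ∑ x, τ j x) := by ring
        omega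
      exact Nat.le_of_mul_le_mul_left h1 (by omega)
    have huj : (∑ c, uu (j, c)) * D ≤ l j * Fintype.card (Cell g) := by
      have h1 : (∑ c, uu (j, c)) * D * (K * g j) ≤ l j * Fintype.card (Cell g) * (K * g j) := by
        calc (∑ c, uu (j, c)) * D * (K * g j) = (∑ c, uu (j, c)) * (K * g j) * D := by ring
          _ ≤ 2 * T * (2 * B * Fintype.card (Cell g)) * D := Nat.mul_le_mul_right _ (huu j)
          _ = 4 * T * B * D * Fintype.card (Cell g) := by ring
          _ ≤ l j * (K * g j) * Fintype.card (Cell g) := Nat.mul_le_mul_right _ (c5 j)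
          _ = l j * Fintype.card (Cell g) * (K * g j) := by ring
      exact Nat.le_of_mul_le_mul_right h1 (Nat.mul_pos hK0 (hg j))
    have hsum' : ∑ h ∈ range H, Function.update b (hh j + 1) (j + 1) (h + 1) + 1 ≤ Φ := by
      refine le_trans ?_ hsum
      refine Nat.succ_le_of_lt (sum_lt_sum ?_ ⟨hh j, mem_range.2 hjH, ?_⟩)
      · intro h _
        by_cases hhh' : h + 1 = hh j + 1
        · rw [hhh', Function.update_self]
          omega
        · rw [Function.update_of_ne hhh']
      · rw [Function.update_self]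
        exact hj1
    obtain ⟨Φ', rfl⟩ : ∃ Φ', Φ = Φ' + 1 := ⟨Φ - 1, by omega⟩
    set Zn : Finset V := (univ.filter (fun c => σ (j, c) ≤ 2 * l j)).biUnion
      (fun c => Z (j, c)) with hZn
    have hZnP : ∀ v ∈ Zn, ∃ c, σ (j, c) ≤ 2 * l j ∧ v ∈ Z (j, c) := by
      intro v hv
      obtain ⟨c, hc, hvc⟩ := mem_biUnion.1 hv
      exact ⟨c, (mem_filter.1 hc).2, hvc⟩
    refine ih Φ' (Nat.lt_succ_self _) (by omega) S' f' (Function.update b (hh j + 1) (j + 1))
      (fun h => if h = hh j + 1 then Zn else U h \ univ.biUnion P) (by omega) ?_ ?_ ?_ ?_ ?_ ?_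
    · rw [Function.update_of_ne (by omega)]
      exact hb0
    · intro h
      by_cases hhh' : h = hh j + 1
      · rw [hhh', Function.update_self]
        have := j.2
        omega
      · rw [Function.update_of_ne hhh']
        exact hbB h
    · have hd : ∀ h, Disjoint Zn (U h \ univ.biUnion P) := by
        intro h
        refine disjoint_left.2 ?_
        intro v hv hv'
        obtain ⟨c, -, hc⟩ := hZnP v hv
        exact (mem_sdiff.1 hv').2 (mem_biUnion.2 ⟨(j, c), mem_univ _, (hZ (j, c)).1 hc⟩)
      intro h h' hne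
      by_cases h1 : h = hh j + 1
      · have h2 : h' ≠ hh j + 1 := fun h2 => hne (h1.trans h2.symm)
        simp only [if_pos h1, if_neg h2]
        exact hd h'
      · by_cases h2 : h' = hh j + 1
        · simp only [if_neg h1, if_pos h2]
          exact (hd h).symm
        · simp only [if_neg h1, if_neg h2]
          exact disjoint_of_subset_left sdiff_subset
            (disjoint_of_subset_right sdiff_subset (hUd h h' hne))
    · intro h v hv
      by_cases h1 : h = hh j + 1
      · simp only [if_pos h1] at hv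
        obtain ⟨c, -, hc⟩ := hZnP v hv
        exact (hZ (j, c)).2.1 hc
      · simp only [if_neg h1] at hv
        refine hrest v (hUS h (mem_sdiff.1 hv).1) ?_
        intro p hp
        exact (mem_sdiff.1 hv).2 (mem_biUnion.2 ⟨p, mem_univ _, hp⟩)
    · intro h v hv
      by_cases h1 : h = hh j + 1
      · simp only [if_pos h1] at hv
        obtain ⟨c, hc1, hc⟩ := hZnP v hv
        have h2 := (hZ (j, c)).2.2.2 v hc
        have h3 := htok _ v (hPU (j, c) v ((hZ (j, c)).1 hc)).1
        have h4 := c3 j j.2
        simp only at h3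
        rw [h1, add_mul, one_mul]
        omega
      · simp only [if_neg h1] at hv
        have := htok h v (mem_sdiff.1 hv).1
        have := hf v
        omega
    · intro h hbh
      by_cases h1 : h = hh j + 1
      · subst h1
        rw [Function.update_self]
        simp only [if_true]
        have hbj := hh1 j
        have hG := ((hgood (hh j) (le_trans hbj j.2.le)).mono hbj (fun _ h => h)).next j (τ j)
          (fun c => uu (j, c)) hτj huj
        refine hG.mono le_rfl ?_
        rintro c ⟨hc1, hc2, hc3⟩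
        have hσc : σ (j, c) ≤ 2 * l j := by
          have := hσ j c
          omega
        have hPc : (P (j, c)).card = u (b (hh j)) := by
          refine hAeq (hh j) c (le_trans ?_ hc1) j
          rw [mul_assoc]
          exact Nat.le_mul_of_pos_left _ (by omega)
        have h2 := (hZ (j, c)).2.2.1
        have h3 := c2 j j.2
        have h4 : u j ≤ u (b (hh j)) := hu hbj
        have h5 : 2 ^ σ (j, c) * ((Z (j, c)).card + T * (2 * m j + 1)) ≤
            2 ^ (2 * l j) * ((Z (j, c)).card + T * (2 * m j + 1)) :=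
          Nat.mul_le_mul_right _ (Nat.pow_le_pow_right (by norm_num) hσc)
        have h6 : 2 ^ (2 * l j) * ((H * (B + 1) + 1) * B * u (j + 1) + T * (2 * m j + 1)) ≤
            2 ^ (2 * l j) * ((Z (j, c)).card + T * (2 * m j + 1)) := by
          simp only at h2
          omega
        have h7 := Nat.le_of_mul_le_mul_left h6 (by positivity)
        have h8 : (Φ' + 1) * B * u (j + 1) ≤ (H * (B + 1) + 1) * B * u (j + 1) :=
          Nat.mul_le_mul_right _ (Nat.mul_le_mul_right _ (by omega))
        have h9 : (Z (j, c)).card ≤ (Zn.filter (fun v => cell v = c)).card := by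
          refine card_le_card ?_
          intro v hv
          exact mem_filter.2 ⟨mem_biUnion.2 ⟨c, mem_filter.2 ⟨mem_univ _, hσc⟩, hv⟩,
            (hPU (j, c) v ((hZ (j, c)).1 hv)).2⟩
        omega
      · rw [Function.update_of_ne h1] at hbh ⊢
        simp only [if_neg h1]
        refine (hgood h hbh).mono le_rfl ?_
        intro c hc
        have hsub : (U h).filter (fun v => cell v = c) ⊆
            (U h \ univ.biUnion P).filter (fun v => cell v = c) ∪ univ.biUnion (A h c) := by
          intro v hv
          obtain ⟨hv1, hv2⟩ := mem_filter.1 hv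
          by_cases hvP : v ∈ univ.biUnion P
          · obtain ⟨⟨j', c'⟩, -, hp⟩ := mem_biUnion.1 hvP
            obtain ⟨h2, h3⟩ := hPU _ v hp
            simp only at h2 h3
            have hc' : c' = c := h3.symm.trans hv2
            have hh' : hh j' = h := by
              by_contra hne
              exact disjoint_left.1 (hUd _ _ hne) h2 hv1
            simp only [hP] at hp
            rw [hc', hh'] at hp
            exact mem_union_right _ (mem_biUnion.2 ⟨j', mem_univ _, hp⟩)
          · exact mem_union_left _ (mem_filter.2 ⟨mem_sdiff.2 ⟨hv1, hvP⟩, hv2⟩)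
        have h2 := (card_le_card hsub).trans (card_union_le _ _)
        have h3 : (univ.biUnion (A h c)).card ≤ B * u (b h) := by
          refine card_biUnion_le.trans ?_
          calc ∑ j', (A h c j').card ≤ ∑ _j' : Fin B, u (b h) :=
                sum_le_sum (fun j' _ => hAle h c j')
            _ = B * u (b h) := by simp
        have h4 : (Φ' + 1 + 1) * B * u (b h) = (Φ' + 1) * B * u (b h) + B * u (b h) := by ring
        omega
  refine key (H * (B + 1)) le_rfl univ f0 (fun h => if h = 0 then 0 else B + 1)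
    (fun h => if h = 0 then univ else ∅) (by simp) (by simp) ?_ ?_ (fun _ => subset_univ _) ?_ ?_
  · intro h
    split_ifs <;> omega
  · intro h h' hne
    by_cases h1 : h = 0
    · have h2 : h' ≠ 0 := fun h2 => hne (h1.trans h2.symm)
      simp [h2]
    · simp [h1]
  · intro h v hv
    by_cases h1 : h = 0
    · simpa [h1] using hf0 v
    · simp [h1] at hv
  · intro h hb
    by_cases h1 : h = 0
    · simp only [h1, if_true]
      exact Good.init D c1
    · simp [h1] at hb

end Pool.Agent.P.MP_7fcf1c_co
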