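import Pool.Agent.P.MP_7fcf1c_co.Offline

set_option autoImplicit false

namespace Pool.Agent.P.MP_7fcf1c_co

open Finset

theorem choose_le_three (n k : ℕ) (hk : 0 < k) : (n.choose k : ℝ) ≤ (3 * n / k) ^ k := by
  have h1 : (n.choose k : ℝ) ≤ (n : ℝ) ^ k / k.factorial := by
    have := Nat.choose_le_pow_div (α := ℝ) k n
    exact_mod_cast this
  have hk' : (0 : ℝ) < k := by exact_mod_cast hk
  have hf : (0 : ℝ) < k.factorial := by exact_mod_cast k.factorial_pos
  have h2 : (k : ℝ) ^ k / k.factorial ≤ 3 ^ k := by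
    refine (Real.pow_div_factorial_le_exp (x := (k : ℝ)) hk'.le k).trans ?_
    rw [← Real.exp_one_pow]
    exact pow_le_pow_left₀ (Real.exp_pos 1).le Real.exp_one_lt_three.le k
  refine h1.trans ?_
  rw [div_pow, mul_pow, div_le_div_iff₀ hf (by positivity)]
  rw [div_le_iff₀ hf] at h2
  calc (n : ℝ) ^ k * (k : ℝ) ^ k ≤ (n : ℝ) ^ k * (3 ^ k * k.factorial) :=
        mul_le_mul_of_nonneg_left h2 (by positivity)
    _ = 3 ^ k * (n : ℝ) ^ k * k.factorial := by ring

theorem term_sparse (n y t γ B : ℕ) (hB : 0 < B) (hy : 0 < y) (hn : y * 2 ^ γ ≤ n)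
    (ht : 28 * B * t ^ 2 ≤ 2 ^ γ) :
    (n.choose y : ℝ) * (((y * y).choose (2 * y) : ℝ) * ((t : ℝ) / n) ^ (2 * y)) ≤
      (1 / (4 * B)) ^ y := by
  have hy' : (0 : ℝ) < y := by exact_mod_cast hy
  have hB' : (0 : ℝ) < B := by exact_mod_cast hB
  have hn0 : 0 < n := lt_of_lt_of_le (by positivity) hn
  have hn' : (0 : ℝ) < n := by exact_mod_cast hn0
  have h1 := choose_le_three n y hy
  have h2 := choose_le_three (y * y) (2 * y) (by omega)
  have h3 : (y : ℝ) * 2 ^ γ ≤ n := by exact_mod_cast hn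
  have h4 : 28 * (B : ℝ) * (t : ℝ) ^ 2 ≤ 2 ^ γ := by exact_mod_cast ht
  calc (n.choose y : ℝ) * (((y * y).choose (2 * y) : ℝ) * ((t : ℝ) / n) ^ (2 * y))
      ≤ (3 * n / y) ^ y * ((3 * ((y * y : ℕ) : ℝ) / ((2 * y : ℕ) : ℝ)) ^ (2 * y) *
          ((t : ℝ) / n) ^ (2 * y)) := by gcongr
    _ = ((3 * n / y) * ((3 * ((y * y : ℕ) : ℝ) / ((2 * y : ℕ) : ℝ)) ^ 2 * ((t : ℝ) / n) ^ 2)) ^ y := by
        rw [pow_mul, pow_mul, mul_pow, mul_pow]
    _ ≤ (1 / (4 * B)) ^ y := by
        refine pow_le_pow_left₀ (by positivity) ?_ _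
        have e : (3 * (n : ℝ) / y) * ((3 * ((y * y : ℕ) : ℝ) / ((2 * y : ℕ) : ℝ)) ^ 2 *
            ((t : ℝ) / n) ^ 2) = 27 * y * t ^ 2 / (4 * n) := by
          push_cast
          field_simp
          ring
        rw [e, div_le_div_iff₀ (by positivity) (by positivity)]
        have h5 : (y : ℝ) * (28 * (B : ℝ) * (t : ℝ) ^ 2) ≤ n :=
          (mul_le_mul_of_nonneg_left h4 hy'.le).trans h3
        have h6 : 0 ≤ (y : ℝ) * (B * (t : ℝ) ^ 2) := by positivity
        nlinarith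

theorem term_dense (n m t e k B : ℕ) (hB : 0 < B) (hm : 0 < m) (hn0 : 0 < n) (htn : t ≤ n)
    (he : n ≤ m * 2 ^ e) (hk : n * k ≤ t * m) (hk' : 36 * B * 4 ^ e ≤ 2 ^ k) :
    (n.choose m : ℝ) * ((n.choose m : ℝ) * (1 - (t : ℝ) / n) ^ (m * m)) ≤ 1 / (4 * B) := by
  have hm' : (0 : ℝ) < m := by exact_mod_cast hm
  have hB' : (1 : ℝ) ≤ B := by exact_mod_cast hB
  have hn' : (0 : ℝ) < n := by exact_mod_cast hn0
  have h0 : 0 ≤ 1 - (t : ℝ) / n := by
    rw [sub_nonneg, div_le_one hn']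
    exact_mod_cast htn
  have h1 : (n.choose m : ℝ) ≤ (3 * 2 ^ e) ^ m := by
    refine (choose_le_three n m hm).trans (pow_le_pow_left₀ (by positivity) ?_ _)
    rw [div_le_iff₀ hm']
    have : (n : ℝ) ≤ m * 2 ^ e := by exact_mod_cast he
    nlinarith
  have h2 : (1 - (t : ℝ) / n) ^ m ≤ (1 / 2) ^ k := by
    have h3 : 1 - (t : ℝ) / n ≤ Real.exp (-((t : ℝ) / n)) := by
      have := Real.add_one_le_exp (-((t : ℝ) / n))
      linarith
    calc (1 - (t : ℝ) / n) ^ m ≤ Real.exp (-((t : ℝ) / n)) ^ m := pow_le_pow_left₀ h0 h3 _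
      _ = Real.exp (m * -((t : ℝ) / n)) := (Real.exp_nat_mul _ _).symm
      _ ≤ Real.exp (k * (-1)) := by
          refine Real.exp_le_exp.2 ?_
          have h4 : (n : ℝ) * k ≤ t * m := by exact_mod_cast hk
          have h5 : (k : ℝ) ≤ m * ((t : ℝ) / n) := by
            rw [← mul_div_assoc, le_div_iff₀ hn']
            linarith
          linarith
      _ = Real.exp (-1) ^ k := Real.exp_nat_mul _ _
      _ ≤ (1 / 2) ^ k := pow_le_pow_left₀ (Real.exp_pos _).le exp_neg_one_le_half _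
  have h6 : (3 * 2 ^ e) * ((3 * 2 ^ e) * (1 / 2 : ℝ) ^ k) ≤ 1 / (4 * B) := by
    have h7 : 36 * (B : ℝ) * 4 ^ e ≤ 2 ^ k := by exact_mod_cast hk'
    have h8 : (4 : ℝ) ^ e = 2 ^ e * 2 ^ e := by rw [← mul_pow]; norm_num
    rw [one_div, inv_pow, le_div_iff₀ (by positivity)]
    have h9 : (0 : ℝ) < 2 ^ k := by positivity
    calc (3 * 2 ^ e) * ((3 * 2 ^ e) * ((2 : ℝ) ^ k)⁻¹) * (4 * B)
        = (36 * (B : ℝ) * 4 ^ e) / 2 ^ k := by rw [h8]; field_simp; ring
      _ ≤ 1 := by rw [div_le_one h9]; exact h7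
  have h10 : (1 : ℝ) / (4 * B) ≤ 1 := by
    rw [div_le_one (by positivity)]
    linarith
  calc (n.choose m : ℝ) * ((n.choose m : ℝ) * (1 - (t : ℝ) / n) ^ (m * m))
      ≤ (3 * 2 ^ e) ^ m * ((3 * 2 ^ e) ^ m * ((1 / 2 : ℝ) ^ k) ^ m) := by
        rw [pow_mul]
        have := pow_nonneg h0 m
        gcongr
    _ = ((3 * 2 ^ e) * ((3 * 2 ^ e) * (1 / 2 : ℝ) ^ k)) ^ m := by simp only [mul_pow]
    _ ≤ (1 / (4 * B)) ^ m := pow_le_pow_left₀ (by positivity) h6 _
    _ ≤ (1 / (4 * B)) ^ 1 := pow_le_pow_of_le_one (by positivity) h10 hm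
    _ = 1 / (4 * B) := pow_one _

theorem sum_sparse {V : Type} [Fintype V] [DecidableEq V] (t γ B : ℕ) (hB : 0 < B)
    (ht : 28 * B * t ^ 2 ≤ 2 ^ γ) :
    ∑ Y ∈ (univ : Finset (Finset V)).filter
        (fun Y => 0 < Y.card ∧ Y.card * 2 ^ γ ≤ Fintype.card V),
      ∑ A ∈ powersetCard (2 * Y.card) (Y ×ˢ Y), ((t : ℝ) / Fintype.card V) ^ A.card ≤
      2 / (4 * B) := by
  set n := Fintype.card V with hn
  have hB' : (1 : ℝ) ≤ B := by exact_mod_cast hB
  have h1 : ∀ Y : Finset V, ∑ A ∈ powersetCard (2 * Y.card) (Y ×ˢ Y), ((t : ℝ) / n) ^ A.card =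
      ((Y.card * Y.card).choose (2 * Y.card) : ℝ) * ((t : ℝ) / n) ^ (2 * Y.card) := by
    intro Y
    rw [sum_congr rfl (fun A hA => by rw [(mem_powersetCard.1 hA).2]), sum_const,
      card_powersetCard, card_product, nsmul_eq_mul]
  simp_rw [h1]
  rw [sum_filter, ← powerset_univ]
  rw [sum_powerset_apply_card (fun y => if 0 < y ∧ y * 2 ^ γ ≤ n then
    ((y * y).choose (2 * y) : ℝ) * ((t : ℝ) / n) ^ (2 * y) else 0)]
  rw [card_univ, ← hn, sum_range_succ']
  simp only [lt_irrefl, false_and, if_false, smul_zero, add_zero]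
  have h2 : (1 : ℝ) / (4 * B) ≤ 1 / 2 := by
    rw [div_le_div_iff₀ (by positivity) (by positivity)]
    linarith
  calc ∑ i ∈ range n, n.choose (i + 1) • (if 0 < i + 1 ∧ (i + 1) * 2 ^ γ ≤ n then
          ((((i + 1) * (i + 1)).choose (2 * (i + 1)) : ℝ) * ((t : ℝ) / n) ^ (2 * (i + 1))) else 0)
      ≤ ∑ i ∈ range n, (1 / (4 * B) : ℝ) * (1 / 2) ^ i := by
        refine sum_le_sum ?_
        intro i _
        split_ifs with h
        · rw [nsmul_eq_mul]
          refine (term_sparse n (i + 1) t γ B hB h.1 h.2 ht).trans ?_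
          rw [pow_succ']
          gcongr
        · rw [smul_zero]
          positivity
    _ = (1 / (4 * B) : ℝ) * ∑ i ∈ range n, (1 / 2) ^ i := by rw [mul_sum]
    _ ≤ (1 / (4 * B) : ℝ) * 2 :=
        mul_le_mul_of_nonneg_left (sum_geometric_two_le n) (by positivity)
    _ = 2 / (4 * B) := by ring

theorem exists_labels {V : Type} [Fintype V] [DecidableEq V] (hV : 0 < Fintype.card V)
    {B : ℕ} (hB : 0 < B) (t γ m e k : ℕ → ℕ) (h1 : ∀ j, j < B → t j ≤ Fintype.card V)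
    (h2 : ∀ j, j < B → 28 * B * t j ^ 2 ≤ 2 ^ γ j) (hm : ∀ j, 0 < m j)
    (he : ∀ j, j < B → Fintype.card V ≤ m j * 2 ^ e j)
    (hk : ∀ j, j < B → Fintype.card V * k j ≤ t j * m j)
    (hk' : ∀ j, j < B → 36 * B * 4 ^ e j ≤ 2 ^ k j) :
    ∃ ω : V × V → ℕ, ∀ j, j < B →
      (∀ Y : Finset V, 0 < Y.card → Y.card * 2 ^ γ j ≤ Fintype.card V →
        ((Y ×ˢ Y).filter (fun p => ω p < t j)).card < 2 * Y.card) ∧
      (∀ X Y : Finset V, m j ≤ X.card → m j ≤ Y.card → ∃ x ∈ X, ∃ y ∈ Y, ω (x, y) < t j) := by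
  set n := Fintype.card V with hn
  have hn' : (0 : ℝ) < n := by exact_mod_cast hV
  have hB' : (1 : ℝ) ≤ B := by exact_mod_cast hB
  have : Nonempty (Fin n) := ⟨⟨0, hV⟩⟩
  set T1 : Finset (Σ _ : Fin B, Σ _ : Finset V, Finset (V × V)) :=
    univ.sigma (fun j => ((univ : Finset (Finset V)).filter
      (fun Y => 0 < Y.card ∧ Y.card * 2 ^ γ j ≤ n)).sigma
        (fun Y => powersetCard (2 * Y.card) (Y ×ˢ Y))) with hT1
  set T2 : Finset (Σ _ : Fin B, Finset V × Finset V) :=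
    univ.sigma (fun j => powersetCard (m j) univ ×ˢ powersetCard (m j) univ) with hT2
  have hsum : ∀ j : Fin B, ∑ y : Fin n, (if (y : ℕ) < t j then (1 : ℝ) else 0) = t j := by
    intro j
    rw [sum_boole, Fin.card_filter_val_lt, min_eq_right (h1 j j.2)]
  obtain ⟨ψ, hψ⟩ := exists_le_avg (Y := Fin n) (T1.disjSum T2)
    (Sum.elim (fun p => p.2.2) (fun p => p.2.1 ×ˢ p.2.2))
    (Sum.elim (fun p y => if (y : ℕ) < t p.1 then (1 : ℝ) else 0)
      (fun p y => 1 - if (y : ℕ) < t p.1 then (1 : ℝ) else 0))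
    (Sum.elim (fun p => (t p.1 : ℝ) / n) (fun p => 1 - (t p.1 : ℝ) / n))
    (by
      rintro (p | p) y
      · simp only [Sum.elim_inl]
        split_ifs <;> norm_num
      · simp only [Sum.elim_inr]
        split_ifs <;> norm_num)
    (by
      rintro (p | p)
      · simp only [Sum.elim_inl]
        positivity
      · simp only [Sum.elim_inr]
        rw [sub_nonneg, div_le_one hn']
        exact_mod_cast h1 p.1 p.1.2)
    (by
      rintro (p | p) _
      · simp only [Sum.elim_inl]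
        rw [hsum, Fintype.card_fin, div_mul_cancel₀ _ hn'.ne']
      · simp only [Sum.elim_inr]
        rw [sum_sub_distrib, hsum, Fintype.card_fin, sub_mul, div_mul_cancel₀ _ hn'.ne']
        simp)
  have hlt : ∑ p ∈ T1.disjSum T2,
      (Sum.elim (fun p => (t p.1 : ℝ) / n) (fun p => 1 - (t p.1 : ℝ) / n) p) ^
      (Sum.elim (fun p : (Σ _ : Fin B, Σ _ : Finset V, Finset (V × V)) => p.2.2)
        (fun p : (Σ _ : Fin B, Finset V × Finset V) => p.2.1 ×ˢ p.2.2) p).card < 1 := by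
    rw [sum_disjSum]
    simp only [Sum.elim_inl, Sum.elim_inr]
    have e1 : ∑ p ∈ T1, ((t p.1 : ℝ) / n) ^ p.2.2.card ≤ B * (2 / (4 * B)) := by
      rw [hT1, sum_sigma]
      calc _ ≤ ∑ _j : Fin B, (2 / (4 * B) : ℝ) := by
            refine sum_le_sum ?_
            intro j _
            rw [sum_sigma]
            exact sum_sparse (t j) (γ j) B hB (h2 j j.2)
        _ = _ := by simp
    have e2 : ∑ p ∈ T2, (1 - (t p.1 : ℝ) / n) ^ (p.2.1 ×ˢ p.2.2).card ≤ B * (1 / (4 * B)) := by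
      rw [hT2, sum_sigma]
      calc _ ≤ ∑ _j : Fin B, (1 / (4 * B) : ℝ) := by
            refine sum_le_sum ?_
            intro j _
            rw [sum_congr rfl (g := fun _ => (1 - (t j : ℝ) / n) ^ (m j * m j))]
            · rw [sum_const, card_product, card_powersetCard, card_univ, ← hn, nsmul_eq_mul,
                Nat.cast_mul, mul_assoc]
              exact term_dense n (m j) (t j) (e j) (k j) B hB (hm j) hV (h1 j j.2) (he j j.2)
                (hk j j.2) (hk' j j.2)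
            · intro p hp
              obtain ⟨hp1, hp2⟩ := mem_product.1 hp
              rw [card_product, (mem_powersetCard.1 hp1).2, (mem_powersetCard.1 hp2).2]
        _ = _ := by simp
    have e3 : (B : ℝ) * (2 / (4 * B)) + B * (1 / (4 * B)) = 3 / 4 := by
      field_simp
      ring
    linarith
  have hall : ∀ p ∈ T1.disjSum T2, ∏ c ∈ Sum.elim
        (fun p : (Σ _ : Fin B, Σ _ : Finset V, Finset (V × V)) => p.2.2)
        (fun p : (Σ _ : Fin B, Finset V × Finset V) => p.2.1 ×ˢ p.2.2) p,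
      Sum.elim (fun p (y : Fin n) => if (y : ℕ) < t p.1 then (1 : ℝ) else 0)
        (fun p (y : Fin n) => 1 - if (y : ℕ) < t p.1 then (1 : ℝ) else 0) p (ψ c) < 1 := by
    intro p hp
    refine lt_of_le_of_lt (le_trans ?_ hψ) hlt
    refine single_le_sum (f := fun p => ∏ c ∈ Sum.elim
        (fun p : (Σ _ : Fin B, Σ _ : Finset V, Finset (V × V)) => p.2.2)
        (fun p : (Σ _ : Fin B, Finset V × Finset V) => p.2.1 ×ˢ p.2.2) p,
      Sum.elim (fun p (y : Fin n) => if (y : ℕ) < t p.1 then (1 : ℝ) else 0)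
        (fun p (y : Fin n) => 1 - if (y : ℕ) < t p.1 then (1 : ℝ) else 0) p (ψ c)) ?_ hp
    rintro (q | q) _
    · simp only [Sum.elim_inl]
      exact prod_nonneg (fun c _ => by split_ifs <;> norm_num)
    · simp only [Sum.elim_inr]
      exact prod_nonneg (fun c _ => by split_ifs <;> norm_num)
  refine ⟨fun p => ψ p, ?_⟩
  intro j hj
  constructor
  · intro Y hY1 hY2
    by_contra hcon
    push Not at hcon
    obtain ⟨A, hA, hAc⟩ := exists_subset_card_eq hcon
    have hmem : (⟨⟨j, hj⟩, ⟨Y, A⟩⟩ : Σ _ : Fin B, Σ _ : Finset V, Finset (V × V)) ∈ T1 := by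
      rw [hT1]
      refine mem_sigma.2 ⟨mem_univ _, mem_sigma.2 ⟨mem_filter.2 ⟨mem_univ _, hY1, hY2⟩, ?_⟩⟩
      exact mem_powersetCard.2 ⟨hA.trans (filter_subset _ _), hAc⟩
    have := hall (Sum.inl _) (inl_mem_disjSum.2 hmem)
    simp only [Sum.elim_inl] at this
    rw [prod_eq_one] at this
    · exact lt_irrefl _ this
    · intro c hc
      rw [if_pos (mem_filter.1 (hA hc)).2]
  · intro X Y hX hY
    obtain ⟨X', hX', hXc⟩ := exists_subset_card_eq hX
    obtain ⟨Y', hY', hYc⟩ := exists_subset_card_eq hY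
    by_contra hcon
    push Not at hcon
    have hmem : (⟨⟨j, hj⟩, (X', Y')⟩ : Σ _ : Fin B, Finset V × Finset V) ∈ T2 := by
      rw [hT2]
      exact mem_sigma.2 ⟨mem_univ _, mem_product.2 ⟨mem_powersetCard.2 ⟨subset_univ _, hXc⟩,
        mem_powersetCard.2 ⟨subset_univ _, hYc⟩⟩⟩
    have := hall (Sum.inr _) (inr_mem_disjSum.2 hmem)
    simp only [Sum.elim_inr] at this
    rw [prod_eq_one] at this
    · exact lt_irrefl _ this
    · rintro ⟨x, y⟩ hc
      obtain ⟨hx, hy⟩ := mem_product.1 hc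
      rw [if_neg (not_lt.2 (hcon x (hX' hx) y (hY' hy))), sub_zero]

/-- Sets all of whose subsets span few active pairs are 4-colourable. -/
theorem exists_four_colouring {V : Type} [DecidableEq V] (act : V × V → Prop) [DecidablePred act]
    (Y : Finset V) :
    (∀ Y' ⊆ Y, 0 < Y'.card → ((Y' ×ˢ Y').filter act).card < 2 * Y'.card) →
    ∃ col : V → Fin 4, ∀ x ∈ Y, ∀ y ∈ Y, x ≠ y → (act (x, y) ∨ act (y, x)) → col x ≠ col y := by
  induction Y using Finset.strongInduction with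
  | H Y ih =>
  intro h
  rcases Y.eq_empty_or_nonempty with hY | hY
  · exact ⟨fun _ => 0, by simp [hY]⟩
  have hex : ∃ v ∈ Y, (Y.filter (fun y => act (v, y) ∨ act (y, v))).card ≤ 3 := by
    by_contra hcon
    push Not at hcon
    have h1 : ∑ _v ∈ Y, 4 ≤ ∑ v ∈ Y, (Y.filter (fun y => act (v, y) ∨ act (y, v))).card :=
      sum_le_sum (fun v hv => hcon v hv)
    have h2 : ∑ v ∈ Y, (Y.filter (fun y => act (v, y) ∨ act (y, v))).card ≤
        ∑ v ∈ Y, (Y.filter (fun y => act (v, y))).card +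
        ∑ v ∈ Y, (Y.filter (fun y => act (y, v))).card := by
      rw [← sum_add_distrib]
      refine sum_le_sum ?_
      intro v _
      rw [filter_or]
      exact card_union_le _ _
    have h3 : ∑ v ∈ Y, (Y.filter (fun y => act (v, y))).card = ((Y ×ˢ Y).filter act).card := by
      simp_rw [card_filter]
      rw [sum_product]
    have h4 : ∑ v ∈ Y, (Y.filter (fun y => act (y, v))).card = ((Y ×ˢ Y).filter act).card := by
      simp_rw [card_filter]
      rw [sum_product_right]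
    have h5 := h Y Subset.rfl (card_pos.2 hY)
    rw [sum_const, smul_eq_mul] at h1
    omega
  obtain ⟨v, hv, hdeg⟩ := hex
  obtain ⟨col, hcol⟩ := ih (Y.erase v) (erase_ssubset hv)
    (fun Y' hY' => h Y' (hY'.trans (erase_subset _ _)))
  have hz : ∃ z : Fin 4, z ∉ (Y.filter (fun y => act (v, y) ∨ act (y, v))).image col := by
    by_contra hcon
    push Not at hcon
    have h1 : (univ : Finset (Fin 4)) ⊆ (Y.filter (fun y => act (v, y) ∨ act (y, v))).image col :=
      fun z _ => hcon z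
    have h2 := (card_le_card h1).trans card_image_le
    rw [card_univ, Fintype.card_fin] at h2
    omega
  obtain ⟨z, hz⟩ := hz
  refine ⟨Function.update col v z, ?_⟩
  intro x hx y hy hxy hact
  by_cases hxv : x = v
  · subst hxv
    rw [Function.update_self, Function.update_of_ne hxy.symm]
    rintro rfl
    exact hz (mem_image.2 ⟨y, mem_filter.2 ⟨hy, hact⟩, rfl⟩)
  · by_cases hyv : y = v
    · subst hyv
      rw [Function.update_self, Function.update_of_ne hxv]
      rintro rfl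
      exact hz (mem_image.2 ⟨x, mem_filter.2 ⟨hx, hact.symm⟩, rfl⟩)
    · rw [Function.update_of_ne hxv, Function.update_of_ne hyv]
      exact hcol x (mem_erase.2 ⟨hxv, hx⟩) y (mem_erase.2 ⟨hyv, hy⟩) hxy hact

end Pool.Agent.P.MP_7fcf1c_co
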