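import Pool.Agent.P.MP_7fcf1c_co.Lister
import Pool.Agent.P.MP_7fcf1c_co.Random

set_option autoImplicit false

namespace Pool.Agent.P.MP_7fcf1c_co

open Finset

/-- The multi-scale graph: two vertices that agree in coordinate `a` are adjacent only if
their label is below the threshold of that coordinate. -/
def msGraph {B : ℕ} (g : Fin B → ℕ) (M : ℕ) (tt : ℕ → ℕ)
    (ω : (Cell g × Fin M) × (Cell g × Fin M) → ℕ) : SimpleGraph (Cell g × Fin M) where
  Adj x y := x ≠ y ∧ ∀ a : Fin B, x.1 a = y.1 a → (ω (x, y) < tt a ∨ ω (y, x) < tt a)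
  symm := ⟨fun _ _ h => ⟨h.1.symm, fun a ha => (h.2 a ha.symm).symm⟩⟩
  loopless := ⟨fun _ h => h.1 rfl⟩

theorem add_three_le_two_pow (B : ℕ) (hB : 3 ≤ B) : B + 3 ≤ 2 ^ B := by
  induction B, hB using Nat.le_induction with
  | base => norm_num
  | succ n _ ih => rw [pow_succ]; omega

theorem thirteen_mul_le (l : ℕ) (hl : 7 ≤ l) : 13 * l ≤ 2 ^ l := by
  induction l, hl using Nat.le_induction with
  | base => norm_num
  | succ n hn ih => rw [pow_succ]; omega

theorem main_aux (n0 B K : ℕ) (hn0 : 0 < n0) (hBn : B = 7680 * n0) (hKdef : K = 2 ^ (4 * B)) :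
    ∃ (V : Type) (_ : Fintype V) (_ : DecidableEq V) (G : SimpleGraph V),
      (∀ L : V → Finset ℕ, (∀ v, 4 * B * (60 * K ^ (B + 2)) ≤ (L v).card) →
        ∃ c : V → ℕ, (∀ v, c v ∈ L v) ∧ ∀ u v, G.Adj u v → c u ≠ c v) ∧
      ∀ f0 : V → ℕ, (∀ v, f0 v ≤ 3840 * n0 * (480 * n0 * K ^ (B + 2))) → Win G univ f0 := by
  have hB3 : 3 ≤ B := by omega
  have hB : 0 < B := by omega
  have hx := add_three_le_two_pow B hB3
  have hK4 : K = (2 ^ B) ^ 4 := by rw [hKdef, ← pow_mul, mul_comm]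
  have hKx : K = 2 ^ B * 2 ^ B * 2 ^ B * 2 ^ B := by rw [hK4]; ring
  have F1 : 4 * B * (B + 3) ≤ K := by
    rw [hKx]
    calc 4 * B * (B + 3) = 4 * B * (B + 3) * 1 := by ring
      _ ≤ 2 ^ B * 2 ^ B * 2 ^ B * 2 ^ B := by gcongr <;> omega
  have F2 : 4 * B * B * B ≤ K := by
    rw [hKx]
    gcongr <;> omega
  have F3 : (3840 * n0 * (B + 1) + 1) * B ≤ K := by
    rw [hKx]
    calc (3840 * n0 * (B + 1) + 1) * B ≤ ((B + 1) * (B + 1)) * B * 1 := by
          rw [mul_one]
          refine Nat.mul_le_mul_right _ ?_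
          have : 3840 * n0 * (B + 1) ≤ B * (B + 1) := Nat.mul_le_mul_right _ (by omega)
          nlinarith
      _ ≤ 2 ^ B * 2 ^ B * 2 ^ B * 2 ^ B := by gcongr <;> omega
  have F4 : B * B * (2 ^ B * B + 1) ≤ K := by
    rw [hKx]
    calc B * B * (2 ^ B * B + 1) ≤ B * B * (2 ^ B * (B + 1)) := by
          refine Nat.mul_le_mul_left _ ?_
          rw [mul_add, mul_one]
          omega
      _ = B * B * 2 ^ B * (B + 1) := by ring
      _ ≤ 2 ^ B * 2 ^ B * 2 ^ B * 2 ^ B := by gcongr <;> omega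
  have F5 : 36 * B ≤ K := by nlinarith
  have hK16 : 16 ≤ K := by omega
  have hK0 : 0 < K := by omega
  have hKK : K < 2 ^ K := Nat.lt_two_pow_self
  have hpow : ∀ a b : ℕ, a ≤ b → K ^ a ≤ K ^ b := fun a b h => Nat.pow_le_pow_right hK0 h
  have h2pow : ∀ a b : ℕ, a ≤ b → 2 ^ a ≤ 2 ^ b := fun a b h =>
    Nat.pow_le_pow_right (by norm_num) h
  have hKl : ∀ j, K ≤ K ^ (j + 1) := fun j => by
    simpa using hpow 1 (j + 1) (by omega)
  have hKl2 : ∀ j, K ≤ K ^ (j + 2) := fun j => hKl (j + 1)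
  have hlΛ : ∀ j, j < B → K ^ (j + 2) ≤ K ^ (B + 1) := fun j hj => hpow _ _ (by omega)
  have hΛk : K ^ (B + 1) ≤ K ^ (B + 2) := hpow _ _ (by omega)
  have hlg : ∀ j, j < B → K ^ (j + 2) * K ^ (B - j) = K ^ (B + 2) := by
    intro j hj
    rw [← pow_add]
    congr 1
    omega
  set g : Fin B → ℕ := fun a => K ^ (B - a) with hg
  set Λ := K ^ (B + 1) with hΛ
  set k0 := K ^ (B + 2) with hk0
  have hΓ1 : 1 ≤ Fintype.card (Cell g) := by
    rw [Fintype.card_pi]
    refine Nat.succ_le_of_lt (prod_pos (fun a _ => ?_))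
    rw [Fintype.card_fin]
    exact Nat.pow_pos hK0
  have hΓ2 : Fintype.card (Cell g) ≤ 2 ^ K := by
    rw [Fintype.card_pi]
    calc ∏ a, Fintype.card (Fin (g a)) ≤ ∏ _a : Fin B, K ^ B :=
          prod_le_prod' (fun a _ => by simpa [hg] using hpow _ _ (Nat.sub_le _ _))
      _ = 2 ^ (4 * B * B * B) := by
          rw [prod_const, card_univ, Fintype.card_fin, ← pow_mul, hKdef, ← pow_mul]
          congr 1
          ring
      _ ≤ 2 ^ K := h2pow _ _ F2
  have hcardV : Fintype.card (Cell g × Fin (2 ^ (8 * Λ))) =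
      Fintype.card (Cell g) * 2 ^ (8 * Λ) := by
    rw [Fintype.card_prod, Fintype.card_fin]
  have hV1 : 2 ^ (8 * Λ) ≤ Fintype.card (Cell g × Fin (2 ^ (8 * Λ))) := by
    rw [hcardV]
    exact Nat.le_mul_of_pos_left _ hΓ1
  have hV2 : Fintype.card (Cell g × Fin (2 ^ (8 * Λ))) ≤ 2 ^ (K + 8 * Λ) := by
    rw [hcardV, pow_add]
    exact Nat.mul_le_mul_right _ hΓ2
  obtain ⟨ω, hω⟩ := exists_labels (V := Cell g × Fin (2 ^ (8 * Λ)))
    (lt_of_lt_of_le (by positivity) hV1) hB (fun j => 2 ^ (7 * K ^ (j + 2)))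
    (fun j => 15 * K ^ (j + 2)) (fun j => 2 ^ (8 * Λ - 5 * K ^ (j + 2)))
    (fun j => 6 * K ^ (j + 2)) (fun j => 13 * K ^ (j + 2))
    (fun j hj => le_trans (h2pow _ _ (by have := hlΛ j hj; omega)) hV1)
    (fun j hj => by
      have h1 : 28 * B ≤ 2 ^ (K ^ (j + 2)) :=
        le_trans (by omega) (hKK.le.trans (h2pow _ _ (hKl2 j)))
      calc 28 * B * (2 ^ (7 * K ^ (j + 2))) ^ 2
          ≤ 2 ^ (K ^ (j + 2)) * (2 ^ (7 * K ^ (j + 2))) ^ 2 := Nat.mul_le_mul_right _ h1
        _ = 2 ^ (15 * K ^ (j + 2)) := by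
            rw [← pow_mul, ← pow_add]
            congr 1
            ring)
    (fun j => by positivity)
    (fun j hj => by
      refine hV2.trans ?_
      rw [← pow_add]
      refine h2pow _ _ ?_
      have := hlΛ j hj
      have := hKl2 j
      omega)
    (fun j hj => by
      have h1 := thirteen_mul_le (K ^ (j + 2)) (by have := hKl2 j; omega)
      refine (Nat.mul_le_mul hV2 h1).trans ?_
      rw [← pow_add, ← pow_add]
      refine h2pow _ _ ?_
      have := hlΛ j hj
      have := hKl2 j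
      omega)
    (fun j hj => by
      have h1 : 36 * B ≤ 2 ^ (K ^ (j + 2)) :=
        le_trans F5 (hKK.le.trans (h2pow _ _ (hKl2 j)))
      calc 36 * B * 4 ^ (6 * K ^ (j + 2))
          ≤ 2 ^ (K ^ (j + 2)) * 4 ^ (6 * K ^ (j + 2)) := Nat.mul_le_mul_right _ h1
        _ = 2 ^ (13 * K ^ (j + 2)) := by
            rw [show (4 : ℕ) = 2 ^ 2 by norm_num, ← pow_mul, ← pow_add]
            congr 1
            ring)
  set tt : ℕ → ℕ := fun a => if a = 0 then 0 else 2 ^ (7 * K ^ (a - 1 + 2)) with htt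
  refine ⟨Cell g × Fin (2 ^ (8 * Λ)), inferInstance, inferInstance, msGraph g _ tt ω, ?_, ?_⟩
  · refine choosable (msGraph g _ tt ω) hB (fun a => K ^ (B - a) * 4)
      (fun a => if a = 0 then 0 else 15 * K ^ (a - 1 + 2)) (fun a => by positivity) ?_
      (by simp) ?_ ?_ ?_
    · intro a ha Y hY
      obtain ⟨col, hcol⟩ := exists_four_colouring (fun p => ω p < tt a) Y (by
        intro Y' hY' hY0
        by_cases ha0 : a = 0
        · simp [htt, ha0, hY0]
        · simp only [htt, if_neg ha0]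
          simp only [if_neg ha0] at hY
          exact (hω (a - 1) (by omega)).1 Y' hY0
            (le_trans (Nat.mul_le_mul_right _ (card_le_card hY')) hY))
      refine ⟨fun x => finProdFinEquiv (x.1 ⟨a, ha⟩, col x), ?_⟩
      intro x hx y hy hxy he
      have he' := finProdFinEquiv.injective he
      have h1 : x.1 ⟨a, ha⟩ = y.1 ⟨a, ha⟩ := congrArg Prod.fst he'
      have h2 : col x = col y := congrArg Prod.snd he'
      exact hcol x hx y hy hxy.1 (hxy.2 ⟨a, ha⟩ h1) h2
    · intro a ha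
      simp only [Nat.add_one_ne_zero, if_false, Nat.add_sub_cancel]
      rw [← hlg a ha]
      apply le_of_eq
      ring
    · simp only [if_neg hB.ne']
      refine lt_of_le_of_lt hV2 (Nat.pow_lt_pow_right (by norm_num) ?_)
      rw [show B - 1 + 2 = B + 1 by omega, ← hΛ]
      have := hKl B
      omega
    · have h1 : B ≤ 2 ^ K := le_trans (by omega) hKK.le
      refine (Nat.mul_le_mul hV2 h1).trans ?_
      rw [← pow_add]
      refine h2pow _ _ ?_
      have := hKl B
      omega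
  · intro f0 hf0
    refine lister_wins (msGraph g _ tt ω) (K := K) (D := 2 ^ B * B + 1) (T := 960 * n0 * k0)
      (H := 3840 * n0) (w := 480 * n0 * k0) Prod.fst (fun j => 2 ^ (8 * Λ - 5 * K ^ (j + 2)))
      (fun j => 2 ^ (8 * Λ - 4 * K ^ (j + 1))) (fun j => K ^ (j + 2)) (by omega) hK0 ?_ ?_ ?_ ?_
      (fun j => by positivity) ?_ ?_ ?_ ?_ ?_ ?_ (Nat.lt_succ_self _) f0 hf0
    · intro a j haj
      simp only [hg]
      rw [← pow_succ']
      refine hpow _ _ ?_
      have := j.2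
      have : (a : ℕ) < j := haj
      omega
    · intro a
      have := hpow 1 (B - a) (by have := a.2; omega)
      simpa [hg] using this
    · intro a b hab
      refine h2pow _ _ ?_
      have := hpow (a + 2) (b + 2) (by omega)
      omega
    · intro a b hab
      refine h2pow _ _ ?_
      have := hpow (a + 1) (b + 1) (by omega)
      omega
    · intro J X Y c c' hX hY hXc hYc hcc
      obtain ⟨x, hx, y, hy, hxy⟩ := (hω J J.2).2 X Y hXc hYc
      refine ⟨x, hx, y, hy, ?_, ?_⟩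
      · rintro rfl
        exact hcc J le_rfl (by rw [← hX x hx, ← hY x hy])
      · intro a ha
        left
        have haJ : ¬ a ≤ J := fun h => hcc a h (by rw [← hX x hx, ← hY y hy]; exact ha)
        have haJ' : (J : ℕ) < a := not_le.1 haJ
        refine lt_of_lt_of_le hxy ?_
        simp only [htt, if_neg (show (a : ℕ) ≠ 0 by omega)]
        refine h2pow _ _ ?_
        have := hpow (J + 2) (a - 1 + 2) (by omega)
        omega
    · intro c
      have h1 : (univ.filter (fun v : Cell g × Fin (2 ^ (8 * Λ)) => v.1 = c)) =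
          ({c} : Finset (Cell g)) ×ˢ univ := by
        ext v
        rw [mem_filter, mem_product, mem_singleton]
        simp
      rw [h1, card_product, card_singleton, card_univ, Fintype.card_fin, one_mul]
      refine (Nat.mul_le_mul_right _ (F3.trans hKK.le)).trans ?_
      rw [← pow_add]
      refine h2pow _ _ ?_
      have := hKl B
      simp only [zero_add, pow_one]
      omega
    · intro j hj
      have h1 := hlΛ j hj
      have h2 := hKl2 j
      have h3 : 16 * K ^ (j + 1) ≤ K ^ (j + 2) := by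
        rw [pow_succ' K (j + 1)]
        exact Nat.mul_le_mul_right _ hK16
      have h4 := hKl j
      set l := K ^ (j + 2) with hl
      set E := 8 * Λ - 5 * l with hE
      have h5 : (3840 * n0 * (B + 1) + 1) * B * 2 ^ (8 * Λ - 4 * l) ≤ 2 ^ (E + 2 * l) := by
        refine (Nat.mul_le_mul_right _ (F3.trans hKK.le)).trans ?_
        rw [← pow_add]
        exact h2pow _ _ (by omega)
      have h6 : 3 * (960 * n0 * k0) ≤ 2 ^ (2 * l) := by
        calc 3 * (960 * n0 * k0) = (2880 * n0) * k0 := by ring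
          _ ≤ K * k0 := Nat.mul_le_mul_right _ (by omega)
          _ = 2 ^ (4 * B * (B + 3)) := by
              rw [hk0, ← pow_succ', hKdef, ← pow_mul]
          _ ≤ 2 ^ (2 * l) := h2pow _ _ (by omega)
      have h7 : 960 * n0 * k0 * (2 * 2 ^ E + 1) ≤ 2 ^ (E + 2 * l) := by
        have h8 : 2 * 2 ^ E + 1 ≤ 3 * 2 ^ E := by
          have : 0 < 2 ^ E := by positivity
          omega
        calc 960 * n0 * k0 * (2 * 2 ^ E + 1) ≤ 960 * n0 * k0 * (3 * 2 ^ E) :=
              Nat.mul_le_mul_left _ h8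
          _ = 2 ^ E * (3 * (960 * n0 * k0)) := by ring
          _ ≤ 2 ^ E * 2 ^ (2 * l) := Nat.mul_le_mul_left _ h6
          _ = 2 ^ (E + 2 * l) := by rw [pow_add]
      calc 2 ^ (2 * l) * ((3840 * n0 * (B + 1) + 1) * B * 2 ^ (8 * Λ - 4 * l) +
            960 * n0 * k0 * (2 * 2 ^ E + 1))
          ≤ 2 ^ (2 * l) * (2 ^ (E + 2 * l) + 2 ^ (E + 2 * l)) :=
            Nat.mul_le_mul_left _ (Nat.add_le_add h5 h7)
        _ = 2 ^ (2 * l + (E + 2 * l) + 1) := by
            rw [pow_succ, pow_add]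
            ring
        _ ≤ 2 ^ (8 * Λ - 4 * K ^ (j + 1)) := h2pow _ _ (by omega)
    · intro j hj
      have h1 := (hlΛ j hj).trans hΛk
      have h2 : k0 ≤ n0 * k0 := Nat.le_mul_of_pos_left _ hn0
      have h3 : 480 * n0 * k0 = 480 * (n0 * k0) := by ring
      have h4 : 960 * n0 * k0 = 960 * (n0 * k0) := by ring
      omega
    · intro j
      simp only [hg]
      rw [hlg j j.2, show B - 3840 * n0 = 3840 * n0 by omega]
      apply le_of_eq
      ring
    · intro j
      simp only [hg]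
      calc 4 * (960 * n0 * k0) * B * (2 ^ B * B + 1)
          = (3840 * n0) * B * (2 ^ B * B + 1) * k0 := by ring
        _ ≤ B * B * (2 ^ B * B + 1) * k0 := by gcongr; omega
        _ ≤ K * k0 := Nat.mul_le_mul_right _ F4
        _ = K ^ ((j : ℕ) + 2) * (K * K ^ (B - j)) := by
            rw [← hlg j j.2]
            ring

theorem main :
    ∀ N : ℕ, ∃ (V : Type) (_ : Fintype V) (_ : DecidableEq V) (G : SimpleGraph V) (k : ℕ),
      1 ≤ k ∧
      (∀ L : V → Finset ℕ, (∀ v, k ≤ (L v).card) →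
        ∃ c : V → ℕ, (∀ v, c v ∈ L v) ∧ ∀ u v, G.Adj u v → c u ≠ c v) ∧
      ¬ (∀ P : Finset V → (V → ℕ) → Prop,
          (∀ (S : Finset V) (f : V → ℕ), (∀ v ∈ S, 1 ≤ f v) →
            (∀ M ⊆ S, M.Nonempty → ∃ I ⊆ M, G.IsIndepSet (↑I : Set V) ∧
               P (S \ I) (fun v => if v ∈ M \ I then f v - 1 else f v)) →
            P S f) →
          P Finset.univ (fun _ => N * k)) := by
  intro N
  obtain ⟨V, i1, i2, G, h1, h2⟩ := main_aux (N + 1) _ _ (Nat.succ_pos N) rfl rfl
  refine ⟨V, i1, i2, G, _, ?_, h1, Win.not_paint (h2 _ ?_)⟩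
  · exact Nat.succ_le_of_lt (by positivity)
  · intro _
    generalize (2 ^ (4 * (7680 * (N + 1)))) ^ (7680 * (N + 1) + 2) = k0
    calc N * (4 * (7680 * (N + 1)) * (60 * k0)) ≤ (N + 1) * (4 * (7680 * (N + 1)) * (60 * k0)) :=
          Nat.mul_le_mul_right _ (Nat.le_succ N)
      _ = 3840 * (N + 1) * (480 * (N + 1) * k0) := by ring

end Pool.Agent.P.MP_7fcf1c_co
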