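import Mathlib

set_option autoImplicit false

namespace Pool.Agent.P.MP_7fcf1c_co

open Finset

theorem exists_le_avg_aux {C Y τ : Type} [DecidableEq C] [Fintype Y] [Nonempty Y]
    (T : Finset τ) (L : τ → Finset C) (φ : τ → Y → ℝ) (μ : τ → ℝ)
    (hφ : ∀ t y, 0 ≤ φ t y) (hμ0 : ∀ t, 0 ≤ μ t)
    (hμ : ∀ t ∈ T, ∑ y, φ t y ≤ μ t * Fintype.card Y) (s : Finset C) :
    ∀ a : τ → ℝ, (∀ t, 0 ≤ a t) → ∃ ψ : C → Y,
      ∑ t ∈ T, a t * ∏ c ∈ L t ∩ s, φ t (ψ c) ≤ ∑ t ∈ T, a t * μ t ^ (L t ∩ s).card := by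
  induction s using Finset.induction_on with
  | empty =>
    intro a _
    exact ⟨fun _ => Classical.arbitrary Y, by simp⟩
  | insert c0 s hc0 ih =>
    intro a ha
    obtain ⟨ψ, hψ⟩ := ih (fun t => a t * if c0 ∈ L t then μ t else 1) (fun t => by
      refine mul_nonneg (ha t) ?_
      split_ifs
      · exact hμ0 t
      · exact zero_le_one)
    have hprod : ∀ (y : Y) (t : τ), ∏ c ∈ L t ∩ insert c0 s, φ t (Function.update ψ c0 y c) =
        (if c0 ∈ L t then φ t y else 1) * ∏ c ∈ L t ∩ s, φ t (ψ c) := by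
      intro y t
      have h1 : ∏ c ∈ L t ∩ s, φ t (Function.update ψ c0 y c) = ∏ c ∈ L t ∩ s, φ t (ψ c) := by
        refine prod_congr rfl ?_
        intro c hc
        have : c ≠ c0 := by
          rintro rfl
          exact hc0 (mem_inter.1 hc).2
        rw [Function.update_of_ne this]
      by_cases h : c0 ∈ L t
      · rw [inter_insert_of_mem h, prod_insert (fun h' => hc0 (mem_inter.1 h').2), if_pos h, h1,
          Function.update_self]
      · rw [inter_insert_of_notMem h, if_neg h, h1, one_mul]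
    have hcard : ∀ t : τ, a t * μ t ^ (L t ∩ insert c0 s).card =
        (a t * if c0 ∈ L t then μ t else 1) * μ t ^ (L t ∩ s).card := by
      intro t
      by_cases h : c0 ∈ L t
      · rw [inter_insert_of_mem h, card_insert_of_notMem (fun h' => hc0 (mem_inter.1 h').2),
          if_pos h]
        ring
      · rw [inter_insert_of_notMem h, if_neg h, mul_one]
    have hsum : ∑ y : Y, ∑ t ∈ T, a t * ∏ c ∈ L t ∩ insert c0 s, φ t (Function.update ψ c0 y c) ≤
        ∑ _y : Y, ∑ t ∈ T, a t * μ t ^ (L t ∩ insert c0 s).card := by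
      rw [sum_const, card_univ, nsmul_eq_mul, sum_comm]
      simp_rw [hcard]
      refine le_trans ?_ (mul_le_mul_of_nonneg_left hψ (Nat.cast_nonneg _))
      rw [mul_sum]
      refine sum_le_sum ?_
      intro t ht
      simp_rw [hprod]
      have hp : 0 ≤ ∏ c ∈ L t ∩ s, φ t (ψ c) := prod_nonneg (fun c _ => hφ t _)
      by_cases h : c0 ∈ L t
      · simp only [if_pos h]
        rw [← mul_sum, ← sum_mul]
        have := mul_le_mul_of_nonneg_left (mul_le_mul_of_nonneg_right (hμ t ht) hp) (ha t)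
        linarith
      · simp only [if_neg h]
        rw [sum_const, card_univ, nsmul_eq_mul]
        apply le_of_eq
        ring
    obtain ⟨y, -, hy⟩ := exists_le_of_sum_le univ_nonempty hsum
    exact ⟨Function.update ψ c0 y, hy⟩

/-- First moment method for product weights. -/
theorem exists_le_avg {C Y τ : Type} [DecidableEq C] [Fintype Y] [Nonempty Y]
    (T : Finset τ) (L : τ → Finset C) (φ : τ → Y → ℝ) (μ : τ → ℝ)
    (hφ : ∀ t y, 0 ≤ φ t y) (hμ0 : ∀ t, 0 ≤ μ t)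
    (hμ : ∀ t ∈ T, ∑ y, φ t y ≤ μ t * Fintype.card Y) :
    ∃ ψ : C → Y, ∑ t ∈ T, ∏ c ∈ L t, φ t (ψ c) ≤ ∑ t ∈ T, μ t ^ (L t).card := by
  obtain ⟨ψ, hψ⟩ := exists_le_avg_aux T L φ μ hφ hμ0 hμ (T.biUnion L) (fun _ => 1)
    (fun _ => zero_le_one)
  refine ⟨ψ, ?_⟩
  have h1 : ∀ t ∈ T, L t ∩ T.biUnion L = L t := fun t ht =>
    inter_eq_left.2 (subset_biUnion_of_mem L ht)
  calc ∑ t ∈ T, ∏ c ∈ L t, φ t (ψ c) = ∑ t ∈ T, 1 * ∏ c ∈ L t ∩ T.biUnion L, φ t (ψ c) :=
        sum_congr rfl (fun t ht => by rw [h1 t ht, one_mul])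
    _ ≤ _ := hψ
    _ = _ := sum_congr rfl (fun t ht => by rw [h1 t ht, one_mul])

theorem exp_neg_one_le_half : Real.exp (-1) ≤ 1 / 2 := by
  have h := Real.add_one_le_exp 1
  rw [Real.exp_neg, one_div]
  exact inv_anti₀ (by norm_num) (by linarith)

theorem one_sub_inv_pow_le (r k w : ℕ) (hr : 0 < r) (hw : r * k ≤ w) :
    (1 - 1 / (r : ℝ)) ^ w ≤ (1 / 2) ^ k := by
  have hr' : (1 : ℝ) ≤ r := by exact_mod_cast hr
  have h0 : 0 ≤ 1 - 1 / (r : ℝ) := by
    rw [sub_nonneg, div_le_one (by linarith)]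
    exact hr'
  have h1 : 1 - 1 / (r : ℝ) ≤ 1 := by
    have : 0 ≤ 1 / (r : ℝ) := by positivity
    linarith
  calc (1 - 1 / (r : ℝ)) ^ w ≤ (1 - 1 / (r : ℝ)) ^ (r * k) := pow_le_pow_of_le_one h0 h1 hw
    _ = ((1 - 1 / (r : ℝ)) ^ r) ^ k := pow_mul _ _ _
    _ ≤ (1 / 2) ^ k := by
        refine pow_le_pow_left₀ (pow_nonneg h0 _) ?_ _
        exact (Real.one_sub_div_pow_le_exp_neg hr').trans exp_neg_one_le_half

theorem exists_phase {V : Type} [DecidableEq V] (Y : Finset V) {r : ℕ} (hr : 0 < r)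
    (cls : V → Fin r) (L : V → Finset ℕ) (k : ℕ) (hL : ∀ v ∈ Y, r * k ≤ (L v).card) :
    ∃ ψ : ℕ → Fin r, (Y.filter (fun v => ∀ c ∈ L v, ψ c ≠ cls v)).card * 2 ^ k ≤ Y.card := by
  have : Nonempty (Fin r) := ⟨⟨0, hr⟩⟩
  have hr' : (1 : ℝ) ≤ r := by exact_mod_cast hr
  have h0 : 0 ≤ 1 - 1 / (r : ℝ) := by
    rw [sub_nonneg, div_le_one (by linarith)]
    exact hr'
  obtain ⟨ψ, hψ⟩ := exists_le_avg Y L (fun v y => if y = cls v then (0 : ℝ) else 1)
    (fun _ => 1 - 1 / (r : ℝ)) (fun v y => by split_ifs <;> norm_num) (fun _ => h0) (by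
      intro v _
      have h1 : ∀ y : Fin r, (if y = cls v then (0 : ℝ) else 1) =
          1 - (if y = cls v then (1 : ℝ) else 0) := by
        intro y
        split_ifs <;> norm_num
      simp_rw [h1]
      rw [sum_sub_distrib, sum_ite_eq' univ (cls v)]
      simp only [sum_const, card_univ, Fintype.card_fin, nsmul_eq_mul, mul_one, mem_univ, if_true]
      apply le_of_eq
      field_simp)
  refine ⟨ψ, ?_⟩
  have h1 : ((Y.filter (fun v => ∀ c ∈ L v, ψ c ≠ cls v)).card : ℝ) ≤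
      ∑ v ∈ Y, ∏ c ∈ L v, (if ψ c = cls v then (0 : ℝ) else 1) := by
    rw [card_eq_sum_ones, Nat.cast_sum]
    calc ∑ v ∈ Y.filter (fun v => ∀ c ∈ L v, ψ c ≠ cls v), ((1 : ℕ) : ℝ)
        = ∑ v ∈ Y.filter (fun v => ∀ c ∈ L v, ψ c ≠ cls v),
            ∏ c ∈ L v, (if ψ c = cls v then (0 : ℝ) else 1) := by
          refine sum_congr rfl ?_
          intro v hv
          rw [prod_eq_one]
          · simp
          · intro c hc
            rw [if_neg ((mem_filter.1 hv).2 c hc)]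
      _ ≤ _ := sum_le_sum_of_subset_of_nonneg (filter_subset _ _) (fun v _ _ =>
          prod_nonneg (fun c _ => by split_ifs <;> norm_num))
  have h2 : ∑ v ∈ Y, (1 - 1 / (r : ℝ)) ^ (L v).card ≤ Y.card * (1 / 2) ^ k := by
    rw [← nsmul_eq_mul, ← sum_const]
    exact sum_le_sum (fun v hv => one_sub_inv_pow_le r k _ hr (hL v hv))
  have h3 := h1.trans (hψ.trans h2)
  have h4 : ((Y.filter (fun v => ∀ c ∈ L v, ψ c ≠ cls v)).card : ℝ) * 2 ^ k ≤ Y.card := by
    rw [one_div, inv_pow, ← div_eq_mul_inv, le_div_iff₀ (by positivity)] at h3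
    exact h3
  exact_mod_cast h4

theorem exists_phase' {V : Type} [DecidableEq V] (Y : Finset V) {r : ℕ} (hr : 0 < r)
    (cls : V → Fin r) (L : V → Finset ℕ) (k : ℕ) (hL : ∀ v ∈ Y, r * k ≤ (L v).card) :
    ∃ (ψ : ℕ → Fin r) (Y' : Finset V), Y'.card * 2 ^ k ≤ Y.card ∧
      ∀ v ∈ Y, v ∉ Y' → ∃ z ∈ L v, ψ z = cls v := by
  obtain ⟨ψ, hψ⟩ := exists_phase Y hr cls L k hL
  refine ⟨ψ, _, hψ, ?_⟩
  intro v hv hv'
  by_contra hcon
  push Not at hcon
  exact hv' (mem_filter.2 ⟨hv, hcon⟩)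

theorem exists_colour_split {V : Type} [Fintype V] {B w : ℕ} (hB : 0 < B)
    (L : V → Finset ℕ) (hL : ∀ v, 4 * B * w ≤ (L v).card) (hn : Fintype.card V * B ≤ 2 ^ w) :
    ∃ φ : ℕ → Fin B, ∀ v a, w ≤ ((L v).filter (fun c => φ c = a)).card := by
  have : Nonempty (Fin B) := ⟨⟨0, hB⟩⟩
  have hB' : (1 : ℝ) ≤ B := by exact_mod_cast hB
  have h0 : 0 ≤ 1 - 1 / ((2 * B : ℕ) : ℝ) := by
    rw [sub_nonneg, div_le_one (by positivity)]
    push_cast
    linarith
  obtain ⟨φ, hφ⟩ := exists_le_avg (univ : Finset (V × Fin B)) (fun t => L t.1)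
    (fun t y => if y = t.2 then (1 / 2 : ℝ) else 1)
    (fun _ => 1 - 1 / ((2 * B : ℕ) : ℝ)) (fun v y => by split_ifs <;> norm_num) (fun _ => h0) (by
      intro t _
      have h1 : ∀ y : Fin B, (if y = t.2 then (1 / 2 : ℝ) else 1) =
          1 - (if y = t.2 then (1 / 2 : ℝ) else 0) := by
        intro y
        split_ifs <;> norm_num
      simp_rw [h1]
      rw [sum_sub_distrib, sum_ite_eq' univ t.2]
      simp only [sum_const, card_univ, Fintype.card_fin, nsmul_eq_mul, mul_one, mem_univ, if_true]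
      apply le_of_eq
      push_cast
      field_simp)
  refine ⟨φ, ?_⟩
  intro v a
  by_contra hcon
  push Not at hcon
  have h1 : ∏ c ∈ L v, (if φ c = a then (1 / 2 : ℝ) else 1) ≤
      ∑ t : V × Fin B, ∏ c ∈ L t.1, (if φ c = t.2 then (1 / 2 : ℝ) else 1) :=
    single_le_sum (f := fun t : V × Fin B => ∏ c ∈ L t.1, (if φ c = t.2 then (1 / 2 : ℝ) else 1))
      (fun t _ => prod_nonneg (fun c _ => by split_ifs <;> norm_num)) (mem_univ (v, a))
  rw [prod_ite, prod_const_one, mul_one, prod_const] at h1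
  have h2 : ∑ t : V × Fin B, (1 - 1 / ((2 * B : ℕ) : ℝ)) ^ (L t.1).card ≤
      (Fintype.card V * B : ℕ) * (1 / 2) ^ (2 * w) := by
    have : Fintype.card V * B = (univ : Finset (V × Fin B)).card := by simp
    rw [this, ← nsmul_eq_mul, ← sum_const]
    refine sum_le_sum (fun t _ => one_sub_inv_pow_le (2 * B) (2 * w) _ (by omega) ?_)
    refine le_trans (le_of_eq ?_) (hL t.1)
    ring
  have h3 : ((Fintype.card V * B : ℕ) : ℝ) ≤ 2 ^ w := by exact_mod_cast hn
  have h4 : (1 / 2 : ℝ) ^ w < (1 / 2) ^ ((L v).filter (fun c => φ c = a)).card :=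
    pow_lt_pow_right_of_lt_one₀ (by norm_num) (by norm_num) hcon
  have h5 : ((Fintype.card V * B : ℕ) : ℝ) * (1 / 2) ^ (2 * w) ≤ (1 / 2) ^ w := by
    calc ((Fintype.card V * B : ℕ) : ℝ) * (1 / 2) ^ (2 * w) ≤ 2 ^ w * (1 / 2) ^ (2 * w) :=
          mul_le_mul_of_nonneg_right h3 (by positivity)
      _ = (1 / 2) ^ w := by
          rw [two_mul, pow_add, ← mul_assoc, ← mul_pow]
          norm_num
  linarith

theorem choosable {V : Type} [Fintype V] [DecidableEq V] (G : SimpleGraph V) {B w : ℕ}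
    (hB : 0 < B) (r γ : ℕ → ℕ) (hr : ∀ a, 0 < r a)
    (hcol : ∀ a, a < B → ∀ Y : Finset V, Y.card * 2 ^ γ a ≤ Fintype.card V →
      ∃ cls : V → Fin (r a), ∀ x ∈ Y, ∀ y ∈ Y, G.Adj x y → cls x ≠ cls y)
    (hγ0 : γ 0 = 0) (hw : ∀ a, a < B → r a * γ (a + 1) ≤ w)
    (hend : Fintype.card V < 2 ^ γ B) (hn : Fintype.card V * B ≤ 2 ^ w)
    (L : V → Finset ℕ) (hL : ∀ v, 4 * B * w ≤ (L v).card) :
    ∃ c : V → ℕ, (∀ v, c v ∈ L v) ∧ ∀ x y, G.Adj x y → c x ≠ c y := by
  obtain ⟨φ, hφ⟩ := exists_colour_split hB L hL hn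
  have key : ∀ a, a ≤ B → ∃ (Y : Finset V) (c : V → ℕ), Y.card * 2 ^ γ a ≤ Fintype.card V ∧
      (∀ v, v ∉ Y → c v ∈ L v ∧ (φ (c v) : ℕ) < a) ∧
      ∀ x y, x ∉ Y → y ∉ Y → G.Adj x y → c x ≠ c y := by
    intro a
    induction a with
    | zero =>
      intro _
      exact ⟨univ, fun _ => 0, by simp [hγ0], by simp, by simp⟩
    | succ a ih =>
      intro ha
      obtain ⟨Y, c, h1, h2, h3⟩ := ih (by omega)
      obtain ⟨cls, hcls⟩ := hcol a (by omega) Y h1
      obtain ⟨ψ, Y', hψ, hY'⟩ := exists_phase' Y (hr a) cls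
        (fun v => (L v).filter (fun c => φ c = ⟨a, by omega⟩)) (γ (a + 1))
        (fun v _ => (hw a (by omega)).trans (hφ v _))
      have hex : ∀ v, ∃ z : ℕ, v ∈ Y → v ∉ Y' → z ∈ L v ∧ (φ z : ℕ) = a ∧ ψ z = cls v := by
        intro v
        by_cases hv : v ∈ Y ∧ v ∉ Y'
        · obtain ⟨z, hz, hz'⟩ := hY' v hv.1 hv.2
          exact ⟨z, fun _ _ => ⟨(mem_filter.1 hz).1, congrArg Fin.val (mem_filter.1 hz).2, hz'⟩⟩
        · exact ⟨0, fun h1 h2 => absurd ⟨h1, h2⟩ hv⟩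
      choose z hz using hex
      refine ⟨Y', fun v => if v ∈ Y then z v else c v, hψ.trans (card_le_univ _), ?_, ?_⟩
      · intro v hv
        by_cases hY : v ∈ Y
        · simp only [if_pos hY]
          obtain ⟨h4, h5, -⟩ := hz v hY hv
          exact ⟨h4, by omega⟩
        · simp only [if_neg hY]
          obtain ⟨h4, h5⟩ := h2 v hY
          exact ⟨h4, by omega⟩
      · intro x y hx hy hxy
        by_cases hxY : x ∈ Y
        · obtain ⟨-, h5, h6⟩ := hz x hxY hx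
          by_cases hyY : y ∈ Y
          · obtain ⟨-, h7, h8⟩ := hz y hyY hy
            simp only [if_pos hxY, if_pos hyY]
            intro he
            exact hcls x hxY y hyY hxy (by rw [← h6, ← h8, he])
          · simp only [if_pos hxY, if_neg hyY]
            intro he
            have := (h2 y hyY).2
            rw [← he] at this
            omega
        · by_cases hyY : y ∈ Y
          · obtain ⟨-, h7, h8⟩ := hz y hyY hy
            simp only [if_neg hxY, if_pos hyY]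
            intro he
            have := (h2 x hxY).2
            rw [he] at this
            omega
          · simp only [if_neg hxY, if_neg hyY]
            exact h3 x y hxY hyY hxy
  obtain ⟨Y, c, h1, h2, h3⟩ := key B le_rfl
  have hY : Y = ∅ := by
    by_contra hne
    have : 0 < Y.card := card_pos.2 (nonempty_iff_ne_empty.2 hne)
    have : 2 ^ γ B ≤ Y.card * 2 ^ γ B := Nat.le_mul_of_pos_left _ this
    omega
  subst hY
  exact ⟨c, fun v => (h2 v (notMem_empty v)).1,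
    fun x y hxy => h3 x y (notMem_empty x) (notMem_empty y) hxy⟩

end Pool.Agent.P.MP_7fcf1c_co
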