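import Pool.Agent.P.MP_7fcf1c_co.Lister

set_option autoImplicit false

namespace Pool.Agent.P.MP_7fcf1c_co.Rate

open Finset

variable {B : ℕ} {g : Fin B → ℕ}

/-- `C` holds for every cell that avoids forbidden sets; the set forbidden in coordinate `a`
depends only on the earlier coordinates and has relative size at most `ε a`. -/
def Avoid (g : Fin B → ℕ) (ε : Fin B → ℝ) (C : Cell g → Prop) : Prop :=
  ∃ F : Cell g → (a : Fin B) → Finset (Fin (g a)),
    (∀ a c c', (∀ b, b < a → c b = c' b) → F c a = F c' a) ∧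
    (∀ a c, ((F c a).card : ℝ) ≤ ε a * g a) ∧
    ∀ c, (∀ a, c a ∉ F c a) → C c

theorem Avoid.mono {ε ε' : Fin B → ℝ} {C C' : Cell g → Prop} (h : Avoid g ε C)
    (hε : ∀ a, ε a ≤ ε' a) (hC : ∀ c, C c → C' c) : Avoid g ε' C' := by
  obtain ⟨F, h1, h2, h3⟩ := h
  refine ⟨F, h1, fun a c => (h2 a c).trans ?_, fun c hc => hC c (h3 c hc)⟩
  exact mul_le_mul_of_nonneg_right (hε a) (Nat.cast_nonneg _)

theorem Avoid.triv {C : Cell g → Prop} (hC : ∀ c, C c) : Avoid g (fun _ => 0) C :=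
  ⟨fun _ _ => ∅, fun _ _ _ _ => rfl, fun _ _ => by simp, fun c _ => hC c⟩

theorem Avoid.and {ε ε' : Fin B → ℝ} {C C' : Cell g → Prop} (h : Avoid g ε C)
    (h' : Avoid g ε' C') : Avoid g (fun a => ε a + ε' a) (fun c => C c ∧ C' c) := by
  obtain ⟨F, h1, h2, h3⟩ := h
  obtain ⟨F', h1', h2', h3'⟩ := h'
  refine ⟨fun c a => F c a ∪ F' c a, ?_, ?_, ?_⟩
  · intro a c c' hc
    simp only
    rw [h1 a c c' hc, h1' a c c' hc]
  · intro a c
    have h4 : ((F c a ∪ F' c a).card : ℝ) ≤ (F c a).card + (F' c a).card := by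
      exact_mod_cast card_union_le _ _
    have := h2 a c
    have := h2' a c
    rw [add_mul]
    linarith
  · intro c hc
    exact ⟨h3 c (fun a ha => hc a (mem_union_left _ ha)),
      h3' c (fun a ha => hc a (mem_union_right _ ha))⟩

theorem Avoid.forall_mem {ι : Type} [DecidableEq ι] (s : Finset ι) (ε : ι → Fin B → ℝ)
    (C : ι → Cell g → Prop) (h : ∀ i ∈ s, Avoid g (ε i) (C i)) :
    Avoid g (fun a => ∑ i ∈ s, ε i a) (fun c => ∀ i ∈ s, C i c) := by
  induction s using Finset.induction_on with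
  | empty => exact (Avoid.triv (by simp)).mono (by simp) (fun _ h => h)
  | insert i s hi ih =>
    have h1 := (h i (mem_insert_self _ _)).and (ih (fun k hk => h k (mem_insert_of_mem hk)))
    refine h1.mono (fun a => ?_) ?_
    · rw [sum_insert hi]
    · rintro c ⟨hc1, hc2⟩ k hk
      rcases mem_insert.1 hk with rfl | hk
      · exact hc1
      · exact hc2 k hk

theorem Avoid.dep (q : Fin B) (Z : Cell g → Finset (Fin (g q))) (e : ℝ)
    (hZ : ∀ c c', (∀ b, b < q → c b = c' b) → Z c = Z c')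
    (he : ∀ c, ((Z c).card : ℝ) ≤ e * g q) :
    Avoid g (fun a => if a = q then e else 0) (fun c => c q ∉ Z c) := by
  refine ⟨fun c => Function.update (fun a => (∅ : Finset (Fin (g a)))) q (Z c), ?_, ?_, ?_⟩
  · intro a c c' hc
    by_cases ha : a = q
    · subst ha
      simp only [Function.update_self]
      exact hZ c c' hc
    · simp only [Function.update_of_ne ha]
  · intro a c
    by_cases ha : a = q
    · subst ha
      simp only [Function.update_self, if_true]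
      exact he c
    · simp only [Function.update_of_ne ha, if_neg ha]
      simp
  · intro c hc
    have := hc q
    simpa only [Function.update_self] using this

theorem Avoid.pair_lt (hg : ∀ a, 0 < g a) (p q : Fin B) (hpq : p < q)
    (Bad : Finset (Fin (g p) × Fin (g q))) (δ : ℝ) (hδ : 0 < δ)
    (hB : (Bad.card : ℝ) ≤ δ ^ 2 * (g p * g q)) :
    Avoid g (fun _ => 2 * δ) (fun c => (c p, c q) ∉ Bad) := by
  set N : Fin (g p) → Finset (Fin (g q)) := fun y => univ.filter (fun z => (y, z) ∈ Bad) with hN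
  set Y : Finset (Fin (g p)) := univ.filter (fun y => δ * g q < (N y).card) with hY
  have hq : (0 : ℝ) < g q := by exact_mod_cast hg q
  have hsum : ∑ y, (N y).card = Bad.card := by
    rw [card_eq_sum_card_fiberwise (f := Prod.fst) (s := Bad) (t := univ) (by simp)]
    refine sum_congr rfl (fun y _ => ?_)
    refine card_bij (fun z _ => (y, z)) ?_ ?_ ?_
    · intro z hz
      exact mem_filter.2 ⟨(mem_filter.1 hz).2, rfl⟩
    · intro z _ z' _ h
      exact (Prod.ext_iff.1 h).2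
    · rintro ⟨y', z⟩ hx
      obtain ⟨h1, h2⟩ := mem_filter.1 hx
      simp only at h2
      subst h2
      exact ⟨z, mem_filter.2 ⟨mem_univ _, h1⟩, rfl⟩
  have hYc : (Y.card : ℝ) ≤ δ * g p := by
    have h1 : (Y.card : ℝ) * (δ * g q) ≤ Bad.card := by
      calc (Y.card : ℝ) * (δ * g q) = ∑ _y ∈ Y, δ * g q := by simp
        _ ≤ ∑ y ∈ Y, ((N y).card : ℝ) := sum_le_sum (fun y hy => (mem_filter.1 hy).2.le)
        _ ≤ ∑ y, ((N y).card : ℝ) :=
            sum_le_sum_of_subset_of_nonneg (subset_univ _) (fun _ _ _ => Nat.cast_nonneg _)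
        _ = Bad.card := by exact_mod_cast hsum
    have h2 : (Y.card : ℝ) * (δ * g q) ≤ δ * g p * (δ * g q) := by
      calc (Y.card : ℝ) * (δ * g q) ≤ δ ^ 2 * (g p * g q) := h1.trans hB
        _ = δ * g p * (δ * g q) := by ring
    exact le_of_mul_le_mul_right h2 (mul_pos hδ hq)
  have A1 := Avoid.dep (g := g) p (fun _ => Y) δ (fun _ _ _ => rfl) (fun _ => hYc)
  have A2 := Avoid.dep (g := g) q (fun c => if c p ∈ Y then ∅ else N (c p)) δ
    (fun c c' hc => by simp only [hc p hpq])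
    (fun c => by
      by_cases h : c p ∈ Y
      · simp only [if_pos h, card_empty, Nat.cast_zero]
        positivity
      · simp only [if_neg h]
        by_contra hcon
        exact h (mem_filter.2 ⟨mem_univ _, lt_of_not_ge hcon⟩))
  refine (A1.and A2).mono (fun a => ?_) ?_
  · split_ifs <;> linarith
  · rintro c ⟨h1, h2⟩ hb
    simp only [if_neg h1] at h2
    exact h2 (mem_filter.2 ⟨mem_univ _, hb⟩)

theorem Avoid.pair (hg : ∀ a, 0 < g a) (p q : Fin B) (hpq : q ≠ p)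
    (Bad : Finset (Fin (g p) × Fin (g q))) (δ : ℝ) (hδ : 0 < δ)
    (hB : (Bad.card : ℝ) ≤ δ ^ 2 * (g p * g q)) :
    Avoid g (fun _ => 2 * δ) (fun c => (c p, c q) ∉ Bad) := by
  rcases lt_or_gt_of_ne hpq with h | h
  · have h1 := Avoid.pair_lt hg q p h (Bad.image Prod.swap) δ hδ (by
      rw [card_image_of_injective _ Prod.swap_injective, mul_comm (g q : ℝ)]
      exact hB)
    refine h1.mono (fun _ => le_rfl) ?_
    intro c hc hb
    exact hc (mem_image.2 ⟨_, hb, rfl⟩)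
  · exact Avoid.pair_lt hg p q h Bad δ hδ hB

theorem Avoid.nonempty {ε : Fin B → ℝ} {C : Cell g → Prop} (h : Avoid g ε C)
    (hg : ∀ a, 0 < g a) (hε : ∀ a, ε a < 1) : ∃ c, C c := by
  obtain ⟨F, h1, h2, h3⟩ := h
  have key : ∀ n : ℕ, ∃ c : Cell g, ∀ a : Fin B, (a : ℕ) < n → c a ∉ F c a := by
    intro n
    induction n with
    | zero => exact ⟨fun a => ⟨0, hg a⟩, fun a ha => by omega⟩
    | succ n ih =>
      obtain ⟨c, hc⟩ := ih
      by_cases hn : n < B
      · set q : Fin B := ⟨n, hn⟩ with hq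
        have hlt : (F c q).card < (univ : Finset (Fin (g q))).card := by
          rw [card_univ, Fintype.card_fin]
          have h4 : (0 : ℝ) < g q := by exact_mod_cast hg q
          have h5 : ((F c q).card : ℝ) < g q := by
            have := mul_lt_mul_of_pos_right (hε q) h4
            have := h2 q c
            linarith
          exact_mod_cast h5
        obtain ⟨y, -, hy⟩ := exists_mem_notMem_of_card_lt_card hlt
        refine ⟨Function.update c q y, ?_⟩
        intro a ha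
        have hF : F (Function.update c q y) a = F c a := by
          refine h1 a _ _ (fun b hb => ?_)
          have hbq : b ≠ q := by
            rintro rfl
            have : n < (a : ℕ) := hb
            omega
          exact Function.update_of_ne hbq _ _
        rw [hF]
        by_cases haq : a = q
        · subst haq
          rw [Function.update_self]
          exact hy
        · rw [Function.update_of_ne haq]
          refine hc a ?_
          have : (a : ℕ) ≠ n := fun h => haq (Fin.ext h)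
          omega
      · exact ⟨c, fun a _ => hc a (by have := a.2; omega)⟩
  obtain ⟨c, hc⟩ := key B
  exact ⟨c, h3 c (fun a => hc a a.2)⟩

/-- In one round all served cells lie in one slice, up to slices of codimension two. -/
theorem round_cover (hg : ∀ a, 0 < g a) (s : Fin B × Cell g → Prop)
    (hcomp : ∀ p q, s p → s q → p.1 ≤ q.1 → ∃ a, a ≤ q.1 ∧ p.2 a = q.2 a) :
    ∃ (a0 y0 : ℕ) (c0 : Fin B → Cell g) (d : Fin B → Fin B → Cell g), ∀ j c, s (j, c) →
      (∃ a : Fin B, a ≤ j ∧ (a : ℕ) = a0 ∧ (c a : ℕ) = y0) ∨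
      (∃ a b : Fin B, a ≤ j ∧ b ≠ a ∧ c a = c0 j a ∧ c b = d j a b) := by
  classical
  have hc0 : ∀ j : Fin B, ∃ c0 : Cell g, (∃ c, s (j, c)) → s (j, c0) := by
    intro j
    by_cases h : ∃ c, s (j, c)
    · obtain ⟨c, hc⟩ := h
      exact ⟨c, fun _ => hc⟩
    · exact ⟨fun a => ⟨0, hg a⟩, fun h' => (h h').elim⟩
  choose c0 hc0 using hc0
  have hd : ∀ j a : Fin B, ∃ d : Cell g, (∃ q, s q ∧ q.2 a ≠ c0 j a) →
      ∃ i, s (i, d) ∧ d a ≠ c0 j a := by
    intro j a
    by_cases h : ∃ q, s q ∧ q.2 a ≠ c0 j a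
    · obtain ⟨q, hq1, hq2⟩ := h
      exact ⟨q.2, fun _ => ⟨q.1, hq1, hq2⟩⟩
    · exact ⟨fun a => ⟨0, hg a⟩, fun h' => (h h').elim⟩
  choose d hd using hd
  have hu : ∃ a0 y0 : ℕ, ∀ a : Fin B, (∃ y : ℕ, ∀ q, s q → (q.2 a : ℕ) = y) →
      ∃ a' : Fin B, a' ≤ a ∧ (a' : ℕ) = a0 ∧ ∀ q, s q → (q.2 a' : ℕ) = y0 := by
    by_cases h : (univ.filter (fun a : Fin B => ∃ y : ℕ, ∀ q, s q → (q.2 a : ℕ) = y)).Nonempty
    · obtain ⟨a0, ha0, hmin⟩ := exists_min_image _ (fun a : Fin B => a) h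
      obtain ⟨y0, hy0⟩ := (mem_filter.1 ha0).2
      exact ⟨a0, y0, fun a ha => ⟨a0, hmin a (mem_filter.2 ⟨mem_univ _, ha⟩), rfl, hy0⟩⟩
    · exact ⟨0, 0, fun a ha => (h ⟨a, mem_filter.2 ⟨mem_univ _, ha⟩⟩).elim⟩
  obtain ⟨a0, y0, hu⟩ := hu
  refine ⟨a0, y0, c0, d, ?_⟩
  intro j c hs
  obtain ⟨a, ha, hca⟩ := hcomp (j, c) (j, c0 j) hs (hc0 j ⟨c, hs⟩) le_rfl
  simp only at ha hca
  by_cases h : ∃ q, s q ∧ q.2 a ≠ c0 j a
  · right
    obtain ⟨i, hi1, hi2⟩ := hd j a h
    have hb : ∃ b, c b = d j a b := by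
      rcases le_total j i with hji | hji
      · obtain ⟨b, -, hb⟩ := hcomp (j, c) (i, d j a) hs hi1 hji
        exact ⟨b, hb⟩
      · obtain ⟨b, -, hb⟩ := hcomp (i, d j a) (j, c) hi1 hs hji
        exact ⟨b, hb.symm⟩
    obtain ⟨b, hb⟩ := hb
    refine ⟨a, b, ha, ?_, hca, hb⟩
    rintro rfl
    exact hi2 (hb.symm.trans hca)
  · left
    push Not at h
    obtain ⟨a', ha', ha0, hy⟩ := hu a ⟨c0 j a, fun q hq => congrArg Fin.val (h q hq)⟩
    exact ⟨a', ha'.trans ha, ha0, hy (j, c) hs⟩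

/-- Book-keeping of the services received by the cells during a block of rounds. -/
def Acc (g : Fin B → ℕ) (n : ℕ) (σ : Fin B × Cell g → ℕ) : Prop :=
  ∃ (τ : (a : Fin B) → Fin (g a) → ℕ) (β : Fin B → (a b : Fin B) → Fin (g a) × Fin (g b) → ℕ),
    ∑ a, ∑ y, τ a y ≤ n ∧ (∀ j a b, ∑ x, β j a b x ≤ n) ∧
    ∀ j c, σ (j, c) ≤ ∑ a ∈ univ.filter (fun a : Fin B => a ≤ j), τ a (c a) +
      ∑ p ∈ univ.filter (fun p : Fin B × Fin B => p.1 ≤ j ∧ p.2 ≠ p.1),
        β j p.1 p.2 (c p.1, c p.2)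

theorem Acc.zero : Acc g 0 (fun _ => 0) :=
  ⟨fun _ _ => 0, fun _ _ _ _ => 0, by simp, by simp, by simp⟩

theorem Acc.step (hg : ∀ a, 0 < g a) (s : Fin B × Cell g → Prop) [DecidablePred s]
    (hcomp : ∀ p q, s p → s q → p.1 ≤ q.1 → ∃ a, a ≤ q.1 ∧ p.2 a = q.2 a)
    {n : ℕ} {σ : Fin B × Cell g → ℕ} (h : Acc g n σ) :
    Acc g (n + 1) (fun i => σ i + if s i then 1 else 0) := by
  obtain ⟨τ, β, h1, h2, h3⟩ := h
  obtain ⟨a0, y0, c0, d, hj⟩ := round_cover hg s hcomp
  refine ⟨fun a y => τ a y + if (a : ℕ) = a0 ∧ (y : ℕ) = y0 then 1 else 0,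
    fun j a b x => β j a b x + if x = (c0 j a, d j a b) then 1 else 0, ?_, ?_, ?_⟩
  · simp only [sum_add_distrib]
    have h4 : ∑ a : Fin B, ∑ y : Fin (g a), (if (a : ℕ) = a0 ∧ (y : ℕ) = y0 then 1 else 0) ≤ 1 := by
      have h5 : ∀ a : Fin B, ∑ y : Fin (g a), (if (a : ℕ) = a0 ∧ (y : ℕ) = y0 then 1 else 0) ≤
          if (a : ℕ) = a0 then 1 else 0 := by
        intro a
        by_cases ha : (a : ℕ) = a0
        · simp only [ha, true_and, if_true]
          rw [← card_filter]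
          refine card_le_one.2 ?_
          intro x hx y hy
          exact Fin.ext ((mem_filter.1 hx).2.trans (mem_filter.1 hy).2.symm)
        · simp [ha]
      refine (sum_le_sum (fun a _ => h5 a)).trans ?_
      rw [← card_filter]
      refine card_le_one.2 ?_
      intro x hx y hy
      exact Fin.ext ((mem_filter.1 hx).2.trans (mem_filter.1 hy).2.symm)
    omega
  · intro j a b
    simp only [sum_add_distrib]
    have h4 : ∑ x : Fin (g a) × Fin (g b), (if x = (c0 j a, d j a b) then 1 else 0) = 1 := by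
      simp
    have := h2 j a b
    omega
  · intro j c
    have h4 := h3 j c
    simp only [sum_add_distrib]
    by_cases hs : s (j, c)
    · simp only [hs, if_true]
      rcases hj j c hs with ⟨a, ha, ha0, hy⟩ | ⟨a, b, ha, hb, hca, hcb⟩
      · have h5 : 1 ≤ ∑ a ∈ univ.filter (fun a : Fin B => a ≤ j),
            (if (a : ℕ) = a0 ∧ (c a : ℕ) = y0 then 1 else 0) := by
          refine le_trans ?_ (single_le_sum (f := fun a : Fin B =>
            if (a : ℕ) = a0 ∧ (c a : ℕ) = y0 then 1 else 0) (fun _ _ => Nat.zero_le _)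
            (mem_filter.2 ⟨mem_univ a, ha⟩))
          simp [ha0, hy]
        omega
      · have h5 : 1 ≤ ∑ p ∈ univ.filter (fun p : Fin B × Fin B => p.1 ≤ j ∧ p.2 ≠ p.1),
            (if (c p.1, c p.2) = (c0 j p.1, d j p.1 p.2) then 1 else 0) := by
          refine le_trans ?_ (single_le_sum (f := fun p : Fin B × Fin B =>
            if (c p.1, c p.2) = (c0 j p.1, d j p.1 p.2) then 1 else 0) (fun _ _ => Nat.zero_le _)
            (mem_filter.2 ⟨mem_univ (a, b), ha, hb⟩))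
          simp [hca, hcb]
        omega
    · simp only [hs, if_false]
      omega

theorem geo_range (n : ℕ) : ∑ i ∈ range n, (1 / 2 : ℝ) ^ i ≤ 2 := by
  have h : ∑ i ∈ range n, (1 / 2 : ℝ) ^ i = 2 - 2 * (1 / 2) ^ n := by
    induction n with
    | zero => simp
    | succ n ih => rw [sum_range_succ, ih, pow_succ]; ring
  rw [h]
  have : (0 : ℝ) ≤ (1 / 2) ^ n := by positivity
  linarith

theorem geo_inj (s : Finset (Fin B)) (f : Fin B → ℕ) (hf : Set.InjOn f s) :
    ∑ a ∈ s, (1 / 2 : ℝ) ^ f a ≤ 2 := by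
  rw [← sum_image (f := fun i => (1 / 2 : ℝ) ^ i) hf]
  obtain ⟨n, hn⟩ : ∃ n, s.image f ⊆ range n := ⟨(s.image f).sup id + 1, fun i hi =>
    mem_range.2 (Nat.lt_succ_of_le (le_sup (f := id) hi))⟩
  exact (sum_le_sum_of_subset_of_nonneg hn (fun _ _ _ => by positivity)).trans (geo_range n)

theorem geo_low (j : Fin B) :
    ∑ a ∈ univ.filter (fun a : Fin B => a ≤ j), (1 / 2 : ℝ) ^ ((j : ℕ) - a) ≤ 2 := by
  refine geo_inj _ (fun a => (j : ℕ) - a) ?_
  intro a ha b hb hab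
  have h1 : (a : ℕ) ≤ j := (mem_filter.1 (mem_coe.1 ha)).2
  have h2 : (b : ℕ) ≤ j := (mem_filter.1 (mem_coe.1 hb)).2
  simp only at hab
  exact Fin.ext (by omega)

theorem geo_high (a : Fin B) :
    ∑ j ∈ univ.filter (fun j : Fin B => a ≤ j), (1 / 2 : ℝ) ^ ((j : ℕ) - a) ≤ 2 := by
  refine geo_inj _ (fun j => (j : ℕ) - a) ?_
  intro j hj b hb hab
  have h1 : (a : ℕ) ≤ j := (mem_filter.1 (mem_coe.1 hj)).2
  have h2 : (a : ℕ) ≤ b := (mem_filter.1 (mem_coe.1 hb)).2
  simp only at hab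
  exact Fin.ext (by omega)

/-- The weighted service received by scale `j`. -/
noncomputable def wt (t : Fin B → ℕ) (j : Fin B) : ℝ :=
  ∑ a ∈ univ.filter (fun a : Fin B => a ≤ j), (1 / 2 : ℝ) ^ ((j : ℕ) - a) * t a

theorem wt_nonneg (t : Fin B → ℕ) (j : Fin B) : 0 ≤ wt t j :=
  sum_nonneg (fun _ _ => by positivity)

theorem sum_wt (t : Fin B → ℕ) : ∑ j, wt t j ≤ 2 * ∑ a, (t a : ℝ) := by
  unfold wt
  rw [sum_comm' (t' := univ) (s' := fun a : Fin B => univ.filter (fun j : Fin B => a ≤ j))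
    (by simp), mul_sum]
  refine sum_le_sum (fun a _ => ?_)
  rw [← sum_mul]
  exact mul_le_mul_of_nonneg_right (geo_high a) (Nat.cast_nonneg _)

theorem markov_real {α : Type} [Fintype α] (u : α → ℕ) (l : ℝ) :
    ((univ.filter (fun x => l < u x)).card : ℝ) * l ≤ ∑ x, (u x : ℝ) := by
  calc ((univ.filter (fun x => l < u x)).card : ℝ) * l
      = ∑ _x ∈ univ.filter (fun x => l < u x), l := by simp
    _ ≤ ∑ x ∈ univ.filter (fun x => l < u x), (u x : ℝ) :=
        sum_le_sum (fun x hx => (mem_filter.1 hx).2.le)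
    _ ≤ ∑ x, (u x : ℝ) :=
        sum_le_sum_of_subset_of_nonneg (filter_subset _ _) (fun _ _ _ => Nat.cast_nonneg _)

/-- The cells with property `C` are plentiful after scale `j` has been passed. -/
def Good (g : Fin B → ℕ) (j : ℕ) (C : Cell g → Prop) : Prop :=
  Avoid g (fun a => 1 / 2 * (1 - (1 / 2 : ℝ) ^ (j - a)) + j / (4 * B)) C

theorem Good.mono {j j' : ℕ} {C C' : Cell g → Prop} (h : Good g j C) (hj : j ≤ j')
    (hC : ∀ c, C c → C' c) : Good g j' C' := by
  refine Avoid.mono h (fun a => ?_) hC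
  have h1 : (1 / 2 : ℝ) ^ (j' - a) ≤ (1 / 2) ^ (j - a) :=
    pow_le_pow_of_le_one (by norm_num) (by norm_num) (by omega)
  have h2 : (j : ℝ) / (4 * B) ≤ j' / (4 * B) :=
    div_le_div_of_nonneg_right (by exact_mod_cast hj) (by positivity)
  linarith

theorem Good.init {C : Cell g → Prop} (hC : ∀ c, C c) : Good g 0 C :=
  (Avoid.triv hC).mono (fun a => by simp) (fun _ h => h)

theorem Good.nonempty {j : ℕ} {C : Cell g → Prop} (h : Good g j C) (hj : j ≤ B)
    (hg : ∀ a, 0 < g a) : ∃ c, C c := by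
  refine Avoid.nonempty h hg (fun a => ?_)
  have hB : (0 : ℝ) < B := by
    have := a.2
    exact_mod_cast (by omega : 0 < B)
  have h1 : (0 : ℝ) < (1 / 2) ^ (j - a) := by positivity
  have h2 : (j : ℝ) / (4 * B) ≤ 1 / 4 := by
    rw [div_le_div_iff₀ (by positivity) (by norm_num)]
    have : (j : ℝ) ≤ B := by exact_mod_cast hj
    linarith
  linarith

theorem Good.next {M l n : ℕ} (hM : 0 < M) (hl : 0 < l) (hK' : ∀ a, M ≤ g a)
    (hK : ∀ a j : Fin B, a ≤ j → 8 ^ ((j : ℕ) - a) * g j ≤ g a)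
    (j : Fin B) {C : Cell g → Prop} (h : Good g j C)
    (τ : (a : Fin B) → Fin (g a) → ℕ) (β : (a b : Fin B) → Fin (g a) × Fin (g b) → ℕ)
    (hτ : 8 * wt (fun a => ∑ y, τ a y) j ≤ l * g j) (hβ : ∀ a b, ∑ x, β a b x ≤ n)
    (hn : 64 * B ^ 8 * n ≤ l * (M * g j)) :
    Good g (j + 1) (fun c => C c ∧ ∑ a ∈ univ.filter (fun a : Fin B => a ≤ j), τ a (c a) ≤ l ∧
      ∑ p ∈ univ.filter (fun p : Fin B × Fin B => p.1 ≤ j ∧ p.2 ≠ p.1),
        β p.1 p.2 (c p.1, c p.2) ≤ l) := by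
  have hg : ∀ a, 0 < g a := fun a => lt_of_lt_of_le hM (hK' a)
  have hB : (0 : ℝ) < B := by
    have := j.2
    exact_mod_cast (by omega : 0 < B)
  have hl' : (0 : ℝ) < l := by exact_mod_cast hl
  -- single coordinates
  have A1 := Avoid.forall_mem (g := g) (univ.filter (fun a : Fin B => a ≤ j))
    (fun a0 a => if a = a0 then 1 / 4 * (1 / 2 : ℝ) ^ ((j : ℕ) - a0) else 0)
    (fun a0 c => c a0 ∉ univ.filter
      (fun y => (l : ℝ) / 2 * (1 / 2 : ℝ) ^ ((j : ℕ) - a0) < τ a0 y)) (by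
    intro a ha
    have haj := (mem_filter.1 ha).2
    refine Avoid.dep a (fun _ => _) _ (fun _ _ _ => rfl) (fun _ => ?_)
    have h1 := markov_real (τ a) ((l : ℝ) / 2 * (1 / 2 : ℝ) ^ ((j : ℕ) - a))
    have h2 : (1 / 2 : ℝ) ^ ((j : ℕ) - a) * ((∑ y, τ a y : ℕ) : ℝ) ≤
        wt (fun a => ∑ y, τ a y) j :=
      single_le_sum (f := fun a : Fin B =>
        (1 / 2 : ℝ) ^ ((j : ℕ) - a) * ((∑ y, τ a y : ℕ) : ℝ)) (fun _ _ => by positivity) ha
    have h3 : (8 : ℝ) ^ ((j : ℕ) - a) * g j ≤ g a := by exact_mod_cast hK a j haj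
    set x : ℝ := (1 / 2 : ℝ) ^ ((j : ℕ) - a) with hx
    have hx0 : 0 < x := by positivity
    have h4 : (8 : ℝ) ^ ((j : ℕ) - a) * x ^ 3 = 1 := by
      rw [hx, ← pow_mul, mul_comm _ 3, pow_mul, ← mul_pow]
      norm_num
    have h5 : (g j : ℝ) ≤ x ^ 3 * g a := by
      calc (g j : ℝ) = x ^ 3 * (8 ^ ((j : ℕ) - a) * g j) := by
            rw [← mul_assoc, mul_comm (x ^ 3), h4, one_mul]
        _ ≤ x ^ 3 * g a := mul_le_mul_of_nonneg_left h3 (by positivity)
    push_cast at h2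
    set N : ℝ := ((univ.filter (fun y => (l : ℝ) / 2 * x < τ a y)).card : ℝ) with hN
    have h6 : N * (4 * l * x ^ 2) ≤ 1 / 4 * x * g a * (4 * l * x ^ 2) := by
      calc N * (4 * l * x ^ 2) = 8 * (x * (N * (l / 2 * x))) := by ring
        _ ≤ 8 * (x * ∑ y, (τ a y : ℝ)) := by gcongr
        _ ≤ l * g j := by linarith
        _ ≤ l * (x ^ 3 * g a) := by gcongr
        _ = 1 / 4 * x * g a * (4 * l * x ^ 2) := by ring
    exact le_of_mul_le_mul_right h6 (by positivity))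
  -- pairs of coordinates
  have A2 := Avoid.forall_mem (g := g)
    (univ.filter (fun p : Fin B × Fin B => p.1 ≤ j ∧ p.2 ≠ p.1))
    (fun _ _ => 2 * (1 / (8 * (B : ℝ) ^ 3)))
    (fun p c => (c p.1, c p.2) ∉ univ.filter
      (fun x => (l : ℝ) / (B : ℝ) ^ 2 < β p.1 p.2 x)) (by
    rintro ⟨a, b⟩ hp
    obtain ⟨ha, hb⟩ := (mem_filter.1 hp).2
    refine Avoid.pair hg a b hb _ _ (by positivity) ?_
    have h1 := markov_real (β a b) ((l : ℝ) / (B : ℝ) ^ 2)
    have h2 : ∑ x, (β a b x : ℝ) ≤ n := by exact_mod_cast hβ a b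
    have h3 : 64 * (B : ℝ) ^ 8 * n ≤ l * (M * g j) := by exact_mod_cast hn
    have h4 : (g j : ℝ) ≤ g a := by
      have h5 := hK a j ha
      have h6 : g j ≤ 8 ^ ((j : ℕ) - a) * g j := Nat.le_mul_of_pos_left _ (by positivity)
      exact_mod_cast h6.trans h5
    have h5 : (M : ℝ) ≤ g b := by exact_mod_cast hK' b
    simp only
    set N : ℝ := ((univ.filter (fun x => (l : ℝ) / (B : ℝ) ^ 2 < β a b x)).card : ℝ) with hN
    have h6 : N * (64 * (B : ℝ) ^ 6 * l) ≤
        (1 / (8 * (B : ℝ) ^ 3)) ^ 2 * (g a * g b) * (64 * (B : ℝ) ^ 6 * l) := by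
      calc N * (64 * (B : ℝ) ^ 6 * l) = 64 * (B : ℝ) ^ 8 * (N * (l / (B : ℝ) ^ 2)) := by
            field_simp
        _ ≤ 64 * (B : ℝ) ^ 8 * n := by gcongr; linarith
        _ ≤ l * (M * g j) := h3
        _ ≤ l * (g b * g a) := by gcongr
        _ = (1 / (8 * (B : ℝ) ^ 3)) ^ 2 * (g a * g b) * (64 * (B : ℝ) ^ 6 * l) := by
            field_simp
            ring
    exact le_of_mul_le_mul_right h6 (by positivity))
  refine ((Avoid.and h A1).and A2).mono (fun a => ?_) ?_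
  · have e1 : ∑ a0 ∈ univ.filter (fun a : Fin B => a ≤ j),
        (if a = a0 then 1 / 4 * (1 / 2 : ℝ) ^ ((j : ℕ) - a0) else 0) ≤
        1 / 2 * ((1 / 2 : ℝ) ^ ((j : ℕ) - a) - (1 / 2 : ℝ) ^ ((j : ℕ) + 1 - a)) := by
      rw [sum_ite_eq]
      by_cases ha : a ≤ j
      · have hm : a ∈ univ.filter (fun a : Fin B => a ≤ j) := mem_filter.2 ⟨mem_univ _, ha⟩
        rw [if_pos hm]
        have h1 : (a : ℕ) ≤ j := ha
        rw [show (j : ℕ) + 1 - a = (j : ℕ) - a + 1 by omega, pow_succ]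
        linarith
      · have hm : a ∉ univ.filter (fun a : Fin B => a ≤ j) := fun h => ha (mem_filter.1 h).2
        rw [if_neg hm]
        have h1 : (j : ℕ) < a := not_le.1 ha
        rw [show (j : ℕ) + 1 - a = 0 by omega, show (j : ℕ) - a = 0 by omega]
        norm_num
    have e2 : ∑ _p ∈ univ.filter (fun p : Fin B × Fin B => p.1 ≤ j ∧ p.2 ≠ p.1),
        (2 : ℝ) * (1 / (8 * (B : ℝ) ^ 3)) ≤ 1 / (4 * (B : ℝ)) := by
      rw [sum_const, nsmul_eq_mul]
      have h1 : ((univ.filter (fun p : Fin B × Fin B => p.1 ≤ j ∧ p.2 ≠ p.1)).card : ℝ) ≤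
          (B : ℝ) ^ 2 := by
        have h2 := card_filter_le (univ : Finset (Fin B × Fin B))
          (fun p : Fin B × Fin B => p.1 ≤ j ∧ p.2 ≠ p.1)
        rw [card_univ, Fintype.card_prod, Fintype.card_fin] at h2
        rw [sq]
        exact_mod_cast h2
      calc _ ≤ (B : ℝ) ^ 2 * (2 * (1 / (8 * (B : ℝ) ^ 3))) := by gcongr
        _ = 1 / (4 * (B : ℝ)) := by
            field_simp
            norm_num
    have e3 : (((j : ℕ) + 1 : ℕ) : ℝ) / (4 * B) = (j : ℕ) / (4 * B) + 1 / (4 * B) := by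
      push_cast
      ring
    rw [e3]
    linarith
  · rintro c ⟨⟨hc1, hc2⟩, hc3⟩
    refine ⟨hc1, ?_, ?_⟩
    · have h1 : ∑ a ∈ univ.filter (fun a : Fin B => a ≤ j), (τ a (c a) : ℝ) ≤ l := by
        calc _ ≤ ∑ a ∈ univ.filter (fun a : Fin B => a ≤ j),
              (l : ℝ) / 2 * (1 / 2 : ℝ) ^ ((j : ℕ) - a) := by
              refine sum_le_sum (fun a ha => ?_)
              by_contra hcon
              exact hc2 a ha (mem_filter.2 ⟨mem_univ _, lt_of_not_ge hcon⟩)
          _ = (l : ℝ) / 2 * ∑ a ∈ univ.filter (fun a : Fin B => a ≤ j),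
              (1 / 2 : ℝ) ^ ((j : ℕ) - a) := by rw [mul_sum]
          _ ≤ (l : ℝ) / 2 * 2 := by
              have := geo_low j
              gcongr
          _ = l := by ring
      exact_mod_cast h1
    · have h1 : ∑ p ∈ univ.filter (fun p : Fin B × Fin B => p.1 ≤ j ∧ p.2 ≠ p.1),
          (β p.1 p.2 (c p.1, c p.2) : ℝ) ≤ l := by
        have h2 : ((univ.filter (fun p : Fin B × Fin B => p.1 ≤ j ∧ p.2 ≠ p.1)).card : ℝ) ≤
            (B : ℝ) ^ 2 := by
          have h2 := card_filter_le (univ : Finset (Fin B × Fin B))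
            (fun p : Fin B × Fin B => p.1 ≤ j ∧ p.2 ≠ p.1)
          rw [card_univ, Fintype.card_prod, Fintype.card_fin] at h2
          rw [sq]
          exact_mod_cast h2
        calc _ ≤ ∑ _p ∈ univ.filter (fun p : Fin B × Fin B => p.1 ≤ j ∧ p.2 ≠ p.1),
              (l : ℝ) / (B : ℝ) ^ 2 := by
              refine sum_le_sum (fun p hp => ?_)
              by_contra hcon
              exact hc3 p hp (mem_filter.2 ⟨mem_univ _, lt_of_not_ge hcon⟩)
          _ ≤ (B : ℝ) ^ 2 * ((l : ℝ) / (B : ℝ) ^ 2) := by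
              rw [sum_const, nsmul_eq_mul]
              gcongr
          _ = l := by field_simp
      exact_mod_cast h1

end Pool.Agent.P.MP_7fcf1c_co.Rate
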