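import Pool.Agent.P.MP_7fcf1c_co.RateLister
import Pool.Agent.P.MP_7fcf1c_co.Main

set_option autoImplicit false

namespace Pool.Agent.P.MP_7fcf1c_co.Rate

open Finset

theorem main_aux (n0 B L M : ℕ) (hn0 : 0 < n0) (hBn : B = 128 * n0) (hL : L = 23 * B ^ 2)
    (hM1 : 128 * B ^ 9 ≤ M) (hM2 : M ≤ 2 ^ (20 * B)) :
    ∃ (V : Type) (_ : Fintype V) (_ : DecidableEq V) (G : SimpleGraph V),
      Fintype.card V ≤ 2 ^ (9 * (L * M * 8 ^ (B + 1))) ∧
      (∀ Ls : V → Finset ℕ, (∀ v, 4 * B * (60 * (L * M * 8 ^ (B + 1))) ≤ (Ls v).card) →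
        ∃ c : V → ℕ, (∀ v, c v ∈ Ls v) ∧ ∀ u v, G.Adj u v → c u ≠ c v) ∧
      ∀ f0 : V → ℕ, (∀ v, f0 v ≤ 64 * n0 * (n0 * (L * M * 8 ^ (B + 1)))) → Win G univ f0 := by
  have hB128 : 128 ≤ B := by omega
  have hB : 0 < B := by omega
  have hx := add_three_le_two_pow B (by omega)
  have hBB : 128 * B ≤ B ^ 2 := by nlinarith
  have hLB : 2944 * B ≤ L := by omega
  have hL0 : 0 < L := by omega
  have hB9 : 0 < B ^ 9 := by positivity
  have hM0 : 128 ≤ M := by omega
  have hLL : L < 2 ^ L := Nat.lt_two_pow_self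
  have h2pow : ∀ a b : ℕ, a ≤ b → 2 ^ a ≤ 2 ^ b := fun a b h =>
    Nat.pow_le_pow_right (by norm_num) h
  have h8pow : ∀ a b : ℕ, a ≤ b → 8 ^ a ≤ 8 ^ b := fun a b h =>
    Nat.pow_le_pow_right (by norm_num) h
  have F3 : (64 * n0 * (B + 1) + 1) * B ≤ 2 ^ L := by
    calc (64 * n0 * (B + 1) + 1) * B ≤ ((B + 1) * (B + 1)) * B := by
          refine Nat.mul_le_mul_right _ ?_
          have : 64 * n0 * (B + 1) ≤ B * (B + 1) := Nat.mul_le_mul_right _ (by omega)
          nlinarith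
      _ ≤ 2 ^ B * 2 ^ B * 2 ^ B := by gcongr <;> omega
      _ = 2 ^ (3 * B) := by ring
      _ ≤ 2 ^ L := h2pow _ _ (by omega)
  set lam : ℕ → ℕ := fun j => L * 8 ^ j with hlam
  have hlam_mono : ∀ a b, a ≤ b → lam a ≤ lam b := fun a b h =>
    Nat.mul_le_mul_left _ (h8pow a b h)
  have hlam0 : ∀ j, L ≤ lam j := fun j => Nat.le_mul_of_pos_right _ (by positivity)
  have hlam_succ : ∀ j, lam (j + 1) = 8 * lam j := fun j => by
    simp only [hlam]
    ring
  set g : Fin B → ℕ := fun a => M * 8 ^ (B - a) with hg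
  set Λ := lam B with hΛ
  set k0 := L * M * 8 ^ (B + 1) with hk0
  have hlΛ : ∀ j, j < B → lam (j + 1) ≤ Λ := fun j hj => hlam_mono _ _ hj
  have hΛk : 8 * Λ * 128 ≤ k0 := by
    calc 8 * Λ * 128 ≤ 8 * Λ * M := Nat.mul_le_mul_left _ hM0
      _ = k0 := by
        simp only [hΛ, hk0, hlam]
        ring
  have hlg : ∀ j, j < B → lam (j + 1) * (M * 8 ^ (B - j)) = k0 := by
    intro j hj
    simp only [hlam, hk0]
    rw [show B + 1 = (j + 1) + (B - j) by omega, pow_add 8 (j + 1)]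
    ring
  have hΓ1 : 1 ≤ Fintype.card (Cell g) := by
    rw [Fintype.card_pi]
    refine Nat.succ_le_of_lt (prod_pos (fun a _ => ?_))
    rw [Fintype.card_fin]
    simp only [hg]
    positivity
  have hM3 : M * 8 ^ B ≤ 2 ^ (23 * B) := by
    calc M * 8 ^ B ≤ 2 ^ (20 * B) * 8 ^ B := Nat.mul_le_mul_right _ hM2
      _ = 2 ^ (23 * B) := by
        rw [show (8 : ℕ) = 2 ^ 3 by norm_num, ← pow_mul, ← pow_add]
        congr 1
        ring
  have hΓ2 : Fintype.card (Cell g) ≤ 2 ^ L := by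
    rw [Fintype.card_pi]
    calc ∏ a, Fintype.card (Fin (g a)) ≤ ∏ _a : Fin B, 2 ^ (23 * B) := by
          refine prod_le_prod' (fun a _ => ?_)
          rw [Fintype.card_fin]
          exact (Nat.mul_le_mul_left _ (h8pow _ _ (Nat.sub_le _ _))).trans hM3
      _ = 2 ^ L := by
          rw [prod_const, card_univ, Fintype.card_fin, ← pow_mul, hL]
          congr 1
          ring
  have hcardV : Fintype.card (Cell g × Fin (2 ^ (8 * Λ))) =
      Fintype.card (Cell g) * 2 ^ (8 * Λ) := by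
    rw [Fintype.card_prod, Fintype.card_fin]
  have hV1 : 2 ^ (8 * Λ) ≤ Fintype.card (Cell g × Fin (2 ^ (8 * Λ))) := by
    rw [hcardV]
    exact Nat.le_mul_of_pos_left _ hΓ1
  have hV2 : Fintype.card (Cell g × Fin (2 ^ (8 * Λ))) ≤ 2 ^ (L + 8 * Λ) := by
    rw [hcardV, pow_add]
    exact Nat.mul_le_mul_right _ hΓ2
  have hLΛ : L ≤ Λ := hlam0 B
  obtain ⟨ω, hω⟩ := exists_labels (V := Cell g × Fin (2 ^ (8 * Λ)))
    (lt_of_lt_of_le (by positivity) hV1) hB (fun j => 2 ^ (7 * lam (j + 1)))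
    (fun j => 15 * lam (j + 1)) (fun j => 2 ^ (8 * Λ - 5 * lam (j + 1)))
    (fun j => 6 * lam (j + 1)) (fun j => 13 * lam (j + 1))
    (fun j hj => le_trans (h2pow _ _ (by have := hlΛ j hj; omega)) hV1)
    (fun j hj => by
      have h1 : 28 * B ≤ 2 ^ (lam (j + 1)) :=
        le_trans (by omega) (hLL.le.trans (h2pow _ _ (hlam0 _)))
      calc 28 * B * (2 ^ (7 * lam (j + 1))) ^ 2
          ≤ 2 ^ (lam (j + 1)) * (2 ^ (7 * lam (j + 1))) ^ 2 := Nat.mul_le_mul_right _ h1
        _ = 2 ^ (15 * lam (j + 1)) := by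
            rw [← pow_mul, ← pow_add]
            congr 1
            ring)
    (fun j => by positivity)
    (fun j hj => by
      refine hV2.trans ?_
      rw [← pow_add]
      refine h2pow _ _ ?_
      have := hlΛ j hj
      have := hlam0 (j + 1)
      omega)
    (fun j hj => by
      have h1 := thirteen_mul_le (lam (j + 1)) (by have := hlam0 (j + 1); omega)
      refine (Nat.mul_le_mul hV2 h1).trans ?_
      rw [← pow_add, ← pow_add]
      refine h2pow _ _ ?_
      have := hlΛ j hj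
      have := hlam0 (j + 1)
      omega)
    (fun j hj => by
      have h1 : 36 * B ≤ 2 ^ (lam (j + 1)) :=
        le_trans (by omega) (hLL.le.trans (h2pow _ _ (hlam0 _)))
      calc 36 * B * 4 ^ (6 * lam (j + 1))
          ≤ 2 ^ (lam (j + 1)) * 4 ^ (6 * lam (j + 1)) := Nat.mul_le_mul_right _ h1
        _ = 2 ^ (13 * lam (j + 1)) := by
            rw [show (4 : ℕ) = 2 ^ 2 by norm_num, ← pow_mul, ← pow_add]
            congr 1
            ring)
  set tt : ℕ → ℕ := fun a => if a = 0 then 0 else 2 ^ (7 * lam (a - 1 + 1)) with htt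
  refine ⟨Cell g × Fin (2 ^ (8 * Λ)), inferInstance, inferInstance, msGraph g _ tt ω,
    hV2.trans (h2pow _ _ (by omega)), ?_, ?_⟩
  · refine choosable (msGraph g _ tt ω) hB (fun a => M * 8 ^ (B - a) * 4)
      (fun a => if a = 0 then 0 else 15 * lam (a - 1 + 1)) (fun a => by positivity) ?_
      (by simp) ?_ ?_ ?_
    · intro a ha Y hY
      obtain ⟨col, hcol⟩ := exists_four_colouring (fun p => ω p < tt a) Y (by
        intro Y' hY' hY0
        by_cases ha0 : a = 0
        · simp [htt, ha0, hY0]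
        · simp only [htt, if_neg ha0]
          simp only [if_neg ha0] at hY
          exact (hω (a - 1) (by omega)).1 Y' hY0
            (le_trans (Nat.mul_le_mul_right _ (card_le_card hY')) hY))
      refine ⟨fun x => finProdFinEquiv (x.1 ⟨a, ha⟩, col x), ?_⟩
      intro x hx y hy hxy he
      have he' := finProdFinEquiv.injective he
      have h1 : x.1 ⟨a, ha⟩ = y.1 ⟨a, ha⟩ := congrArg Prod.fst he'
      have h2 : col x = col y := congrArg Prod.snd he'
      exact hcol x hx y hy hxy.1 (hxy.2 ⟨a, ha⟩ h1) h2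
    · intro a ha
      simp only [Nat.add_one_ne_zero, if_false, Nat.add_sub_cancel]
      rw [← hlg a ha]
      apply le_of_eq
      ring
    · simp only [if_neg hB.ne']
      refine lt_of_le_of_lt hV2 (Nat.pow_lt_pow_right (by norm_num) ?_)
      rw [show B - 1 + 1 = B by omega, ← hΛ]
      omega
    · have h1 : B ≤ 2 ^ L := le_trans (by omega) hLL.le
      refine (Nat.mul_le_mul hV2 h1).trans ?_
      rw [← pow_add]
      refine h2pow _ _ ?_
      omega
  · intro f0 hf0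
    refine lister_wins (msGraph g _ tt ω) (M := M) (T := 2 * n0 * k0)
      (H := 64 * n0) (w := n0 * k0) Prod.fst (fun j => 2 ^ (8 * Λ - 5 * lam (j + 1)))
      (fun j => 2 ^ (8 * Λ - 4 * lam j)) (fun j => lam (j + 1)) (by omega) (by omega)
      (fun j => lt_of_lt_of_le hL0 (hlam0 _)) ?_ ?_ ?_ ?_
      (fun j => by positivity) ?_ ?_ ?_ ?_ ?_ ?_ f0 hf0
    · intro a j haj
      simp only [hg]
      have h1 : (a : ℕ) ≤ j := haj
      have h2 := j.2
      rw [show B - (a : ℕ) = ((j : ℕ) - a) + (B - j) by omega, pow_add]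
      apply le_of_eq
      ring
    · intro a
      exact Nat.le_mul_of_pos_right _ (by positivity)
    · intro a b hab
      refine h2pow _ _ ?_
      have := hlam_mono (a + 1) (b + 1) (by omega)
      omega
    · intro a b hab
      refine h2pow _ _ ?_
      have := hlam_mono a b hab
      omega
    · intro J X Y c c' hX hY hXc hYc hcc
      obtain ⟨x, hx, y, hy, hxy⟩ := (hω J J.2).2 X Y hXc hYc
      refine ⟨x, hx, y, hy, ?_, ?_⟩
      · rintro rfl
        exact hcc J le_rfl (by rw [← hX x hx, ← hY x hy])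
      · intro a ha
        left
        have haJ : ¬ a ≤ J := fun h => hcc a h (by rw [← hX x hx, ← hY y hy]; exact ha)
        have haJ' : (J : ℕ) < a := not_le.1 haJ
        refine lt_of_lt_of_le hxy ?_
        simp only [htt, if_neg (show (a : ℕ) ≠ 0 by omega)]
        refine h2pow _ _ ?_
        have := hlam_mono (J + 1) (a - 1 + 1) (by omega)
        omega
    · intro c
      have h1 : (univ.filter (fun v : Cell g × Fin (2 ^ (8 * Λ)) => v.1 = c)) =
          ({c} : Finset (Cell g)) ×ˢ univ := by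
        ext v
        rw [mem_filter, mem_product, mem_singleton]
        simp
      rw [h1, card_product, card_singleton, card_univ, Fintype.card_fin, one_mul]
      refine (Nat.mul_le_mul_right _ F3).trans ?_
      rw [← pow_add]
      refine h2pow _ _ ?_
      have h2 : lam 0 = L := by simp [hlam]
      omega
    · intro j hj
      have h1 := hlΛ j hj
      have h2 := hlam0 (j + 1)
      have h3 := hlam_succ j
      have h4 := hlam0 j
      set l := lam (j + 1) with hl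
      set E := 8 * Λ - 5 * l with hE
      have h5 : (64 * n0 * (B + 1) + 1) * B * 2 ^ (8 * Λ - 4 * l) ≤ 2 ^ (E + 2 * l) := by
        refine (Nat.mul_le_mul_right _ F3).trans ?_
        rw [← pow_add]
        exact h2pow _ _ (by omega)
      have h6 : 3 * (2 * n0 * k0) ≤ 2 ^ (2 * l) := by
        calc 3 * (2 * n0 * k0) = (48 * n0) * L * (M * 8 ^ B) := by
              rw [hk0]
              ring
          _ ≤ 2 ^ B * 2 ^ L * 2 ^ (23 * B) := by gcongr; omega
          _ = 2 ^ (24 * B + L) := by ring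
          _ ≤ 2 ^ (2 * l) := h2pow _ _ (by omega)
      have h7 : 2 * n0 * k0 * (2 * 2 ^ E + 1) ≤ 2 ^ (E + 2 * l) := by
        have h8 : 2 * 2 ^ E + 1 ≤ 3 * 2 ^ E := by
          have : 0 < 2 ^ E := by positivity
          omega
        calc 2 * n0 * k0 * (2 * 2 ^ E + 1) ≤ 2 * n0 * k0 * (3 * 2 ^ E) :=
              Nat.mul_le_mul_left _ h8
          _ = 2 ^ E * (3 * (2 * n0 * k0)) := by ring
          _ ≤ 2 ^ E * 2 ^ (2 * l) := Nat.mul_le_mul_left _ h6
          _ = 2 ^ (E + 2 * l) := by rw [pow_add]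
      calc 2 ^ (2 * l) * ((64 * n0 * (B + 1) + 1) * B * 2 ^ (8 * Λ - 4 * l) +
            2 * n0 * k0 * (2 * 2 ^ E + 1))
          ≤ 2 ^ (2 * l) * (2 ^ (E + 2 * l) + 2 ^ (E + 2 * l)) :=
            Nat.mul_le_mul_left _ (Nat.add_le_add h5 h7)
        _ = 2 ^ (2 * l + (E + 2 * l) + 1) := by
            rw [pow_succ, pow_add]
            ring
        _ ≤ 2 ^ (8 * Λ - 4 * lam j) := h2pow _ _ (by omega)
    · intro j hj
      have h1 := hlΛ j hj
      have h2 : k0 ≤ n0 * k0 := Nat.le_mul_of_pos_left _ hn0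
      have h4 : 2 * n0 * k0 = 2 * (n0 * k0) := by ring
      omega
    · intro j
      simp only [hg]
      rw [hlg j j.2, show B - 64 * n0 = 64 * n0 by omega]
      apply le_of_eq
      ring
    · intro j
      simp only [hg]
      calc 64 * B ^ 8 * (2 * (2 * n0 * k0)) = 64 * B ^ 8 * (4 * n0) * k0 := by ring
        _ ≤ 64 * B ^ 8 * (2 * B) * k0 :=
            Nat.mul_le_mul_right _ (Nat.mul_le_mul_left _ (by omega))
        _ = 128 * B ^ 9 * k0 := by ring
        _ ≤ M * k0 := Nat.mul_le_mul_right _ hM1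
        _ = lam (j + 1) * (M * (M * 8 ^ (B - j))) := by
            rw [← hlg j j.2]
            ring

theorem sq_le_two_pow (B : ℕ) (hB : 4 ≤ B) : B ^ 2 ≤ 2 ^ B := by
  induction B, hB using Nat.le_induction with
  | base => norm_num
  | succ n hn ih =>
    have : (n + 1) ^ 2 ≤ 2 * n ^ 2 := by nlinarith
    rw [pow_succ 2 n]
    omega

theorem main_nat (k : ℕ) (hk : 2 ^ 1280 ≤ k) :
    ∃ (V : Type) (_ : Fintype V) (_ : DecidableEq V) (G : SimpleGraph V),
      Fintype.card V ≤ 2 ^ k ∧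
      (∀ Ls : V → Finset ℕ, (∀ v, k ≤ (Ls v).card) →
        ∃ c : V → ℕ, (∀ v, c v ∈ Ls v) ∧ ∀ u v, G.Adj u v → c u ≠ c v) ∧
      ∀ m : ℕ, 2457600 * m ≤ k * Nat.log 2 k → Win G univ (fun _ => m) := by
  have hk0 : k ≠ 0 := (lt_of_lt_of_le (Nat.two_pow_pos 1280) hk).ne'
  have hlog : 1280 ≤ Nat.log 2 k := (Nat.le_log_iff_pow_le (by norm_num) hk0).2 hk
  have hk1 : 2 ^ Nat.log 2 k ≤ k := Nat.pow_log_le_self 2 hk0
  have hk2 : k < 2 ^ (Nat.log 2 k + 1) := Nat.lt_pow_succ_log_self (by norm_num) k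
  clear hk
  set lg := Nat.log 2 k with hlg
  set n0 := lg / 1280 with hn0
  have hn1 : 0 < n0 := by omega
  set B := 128 * n0 with hB
  have hB128 : 128 ≤ B := by omega
  set L := 23 * B ^ 2 with hL
  set Q := 4 * B * (60 * (L * 8 ^ (B + 1))) with hQ
  have hQ0 : 0 < Q := by positivity
  have h2pow : ∀ a b : ℕ, a ≤ b → 2 ^ a ≤ 2 ^ b := fun a b h =>
    Nat.pow_le_pow_right (by norm_num) h
  have hbig : 128 * B ^ 9 * Q ≤ k := by
    have h1 := sq_le_two_pow B (by omega)
    have h2 : 5652480 ≤ 2 ^ B := le_trans (by norm_num) (h2pow 23 B (by omega))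
    calc 128 * B ^ 9 * Q = 5652480 * (B ^ 2) ^ 6 * 8 ^ B := by
          rw [hQ, hL]
          ring
      _ ≤ 2 ^ B * (2 ^ B) ^ 6 * 8 ^ B := by gcongr
      _ = 2 ^ (10 * B) := by
          rw [show (8 : ℕ) = 2 ^ 3 by norm_num, ← pow_mul, ← pow_mul, ← pow_add, ← pow_add]
          congr 1
          ring
      _ ≤ 2 ^ lg := h2pow _ _ (by omega)
      _ ≤ k := hk1
  set M := k / Q with hM
  have hM1 : 128 * B ^ 9 ≤ M := (Nat.le_div_iff_mul_le hQ0).2 hbig
  have hM2 : M ≤ 2 ^ (20 * B) :=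
    (Nat.div_le_self _ _).trans (hk2.le.trans (h2pow _ _ (by omega)))
  have hB9 : 0 < B ^ 9 := by positivity
  have hMQ : M * Q ≤ k := Nat.div_mul_le_self _ _
  have hMQ' : k ≤ 2 * (M * Q) := by
    have h1 : k < Q * (M + 1) := Nat.lt_mul_div_succ k hQ0
    have h2 : Q * (M + 1) ≤ Q * (2 * M) := Nat.mul_le_mul_left _ (by omega)
    have h3 : Q * (2 * M) = 2 * (M * Q) := by ring
    omega
  obtain ⟨V, i1, i2, G, h1, h2, h3⟩ := main_aux n0 B L M hn1 hB hL hM1 hM2
  set k0 := L * M * 8 ^ (B + 1) with hk0'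
  have hQk : M * Q = 30720 * (n0 * k0) := by
    rw [hQ, hk0', hB]
    ring
  have hn0k : k0 ≤ n0 * k0 := Nat.le_mul_of_pos_left _ hn1
  refine ⟨V, i1, i2, G, h1.trans (h2pow _ _ (by omega)), ?_, ?_⟩
  · intro Ls hLs
    refine h2 Ls (fun v => le_trans ?_ (hLs v))
    have : 4 * B * (60 * k0) = 30720 * (n0 * k0) := by
      rw [hB]
      ring
    omega
  · intro m hm
    refine h3 _ (fun _ => ?_)
    have h4 : k * lg ≤ 61440 * (n0 * k0) * (2560 * n0) :=
      Nat.mul_le_mul (by omega) (by omega)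
    have h5 : 61440 * (n0 * k0) * (2560 * n0) = 2457600 * (64 * n0 * (n0 * k0)) := by ring
    omega

theorem main :
    ∃ c : ℝ, 0 < c ∧ ∃ k₀ : ℕ, ∀ k : ℕ, k₀ ≤ k →
      ∃ (V : Type) (_ : Fintype V) (_ : DecidableEq V) (G : SimpleGraph V),
        Fintype.card V ≤ 2 ^ k ∧
        (∀ L : V → Finset ℕ, (∀ v, k ≤ (L v).card) →
          ∃ col : V → ℕ, (∀ v, col v ∈ L v) ∧ ∀ u v, G.Adj u v → col u ≠ col v) ∧
        ∀ m : ℕ, (m : ℝ) ≤ c * k * Real.log k →
          ¬ (∀ P : Finset V → (V → ℕ) → Prop,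
            (∀ (S : Finset V) (f : V → ℕ), (∀ v ∈ S, 1 ≤ f v) →
              (∀ M ⊆ S, M.Nonempty → ∃ I ⊆ M, G.IsIndepSet (↑I : Set V) ∧
                 P (S \ I) (fun v => if v ∈ M \ I then f v - 1 else f v)) →
              P S f) →
            P Finset.univ (fun _ => m)) := by
  refine ⟨1 / 4915200, by norm_num, 2 ^ 1280, ?_⟩
  intro k hk
  obtain ⟨V, i1, i2, G, h1, h2, h3⟩ := main_nat k hk
  refine ⟨V, i1, i2, G, h1, h2, ?_⟩
  intro m hm
  refine Win.not_paint (h3 m ?_)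
  have hk0 : k ≠ 0 := (lt_of_lt_of_le (Nat.two_pow_pos 1280) hk).ne'
  have hlog : 1280 ≤ Nat.log 2 k := (Nat.le_log_iff_pow_le (by norm_num) hk0).2 hk
  have hk2 : k < 2 ^ (Nat.log 2 k + 1) := Nat.lt_pow_succ_log_self (by norm_num) k
  clear hk
  have hkpos : (0 : ℝ) < k := by exact_mod_cast Nat.pos_of_ne_zero hk0
  have h4 : Real.log k ≤ 2 * Nat.log 2 k := by
    have h5 : (k : ℝ) ≤ 2 ^ (Nat.log 2 k + 1) := by exact_mod_cast hk2.le
    have h6 := Real.log_le_log hkpos h5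
    rw [Real.log_pow] at h6
    have h7 : Real.log 2 ≤ 1 := by
      have := Real.log_le_sub_one_of_pos (show (0 : ℝ) < 2 by norm_num)
      linarith
    have h8 : (1280 : ℝ) ≤ Nat.log 2 k := by exact_mod_cast hlog
    push_cast at h6
    nlinarith
  have h5 : (2457600 : ℝ) * m ≤ k * Nat.log 2 k := by
    have := mul_le_mul_of_nonneg_left h4 hkpos.le
    nlinarith
  exact_mod_cast h5

end Pool.Agent.P.MP_7fcf1c_co.Rate
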